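import Pool.Agent.H68.OP.Gl
import Pool.Agent.H85.OP.Fin
import Pool.Agent.H85.OU.Cnv

/-!
# Project OP: the integer theorem `Core` from the 2-adic part and the zero estimate
-/

open PowerSeries

namespace Pool.Agent.H68.OP

open Pool.Agent.H85.OT Pool.Agent.H85.OU

theorem core_of
    (h : ∀ (f : ℤ⟦X⟧) (k : ℕ), 3 ≤ k → LForm ℚ k (PowerSeries.map (Int.castRingHom ℚ) f) →
      (∀ n, 2 ∣ n → PowerSeries.coeff n f = 0) → f ≠ 0 →
      (∃ C, TwoAd f (k - 2) C) ∧ Pool.Agent.H46.OP.ZeroEst f (k - 2)) :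
    Pool.Agent.H85.OP.Core := by
  intro f k hk hL hodd hne
  obtain ⟨h2, hze⟩ := h f k hk hL hodd hne
  refine posLower_O1' f hodd (k - 2) (by omega) h2 hze fun ρ hρ hρ1 => ?_
  obtain ⟨B, -, hB, -⟩ := exists_Bd_FL hL hρ hρ1
  exact ⟨B, hB⟩

end Pool.Agent.H68.OP
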