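import Pool.Agent.H68.OP.Defs
import Pool.Agent.H85.OT.Cden

/-!
# Row OPDb (project OP, block D): denominators

`f` with `a_n = 0` for even `n`.  `Z1 f Y` is odd and positive.
* `Z1_dvd`: `1 ≤ N ≤ Y`: `N ∣ Z1 f Y * a_N`.  If `N` is even, `a_N = 0`.  `N` odd: for a prime power `p^k ∣ N`, `k ≥ 1`
  (see `Cden_dvd` in `OT/Cden.lean` for the same argument), `p ≠ 2`, `p ≤ Y`.  If `O1 f p` or `p² ≤ Y`: `p^k ≤ Y`, so
  `k ≤ log_p Y` and `p^k ∣ Z1`.  Otherwise `p² > Y ≥ N` so `k = 1`, and `p ∣ a_N` because `O1 f p` fails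
  (`N = p m` odd).
* `Z1_F1`: `Z1 * coeff N (F1 f)` is an integer for `N ≤ Y`.
* `den_Ph`: `Z1^L * coeff l (Ph f κ L n x)` is an integer for `l ≤ Y` : the series `y` such that `Z1^a * coeff l y` is an
  integer for all `l ≤ Y` behave as in `CdenI_mul`, `CdenI_pow`, `CdenI_map`, `CdenI_mono` (copy these four lemmas with
  `Z1` in the place of `Z0`); `WW`, `ss`, `Dq WW` have integer coefficients: `WW = map (dbl (th3²))` (`fld_map_dbl`),
  `ss`: `8 ss = U - V`: `U - V = 2 (U - dbl U)` (`fld_dblU`) has only coefficients divisible by `8`: coefficient `n` of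
  `th3² - th4² = 2 (th3² - dbl th3²)`, .. it suffices that `th3² ≡ th4² mod 8`: `th3 = 1 + 2a`, `th4 = 1 + 2b` with
  `a_n = 1` for squares `n ≥ 1`, `b_n = (-1)^n a_n`; `th3² - th4² = (th3 - th4)(th3 + th4)`, `th3 - th4 = 4 ∑_(m odd) q^(m²)`,
  `th3 + th4 = 2 + 4 ∑_(m even)`.  So `ss = (∑_(m odd) q^(m²)) (1 + 2 ∑_(m even, ≥ 2) q^(m²))`.
* `den_PhS`: sum with integer coefficients.
-/

open PowerSeries

namespace Pool.Agent.H68.OP

open Pool.Agent.H85.OT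

theorem Z1_pos (f : ℤ⟦X⟧) (Y : ℕ) : 0 < Z1 f Y := by
  classical
  unfold Z1
  refine Finset.prod_pos fun p hp => ?_
  have h := (Finset.mem_filter.1 hp).2.1
  exact pow_pos h.pos _

theorem Z1_odd (f : ℤ⟦X⟧) (Y : ℕ) : ¬ 2 ∣ Z1 f Y := by
  classical
  intro h
  unfold Z1 at h
  obtain ⟨p, hp, h2⟩ := (Nat.prime_two.prime.dvd_finsetProd_iff _).1 h
  have h3 := (Finset.mem_filter.1 hp).2
  have h4 : 2 ∣ p := Nat.prime_two.dvd_of_dvd_pow h2
  exact h3.2.1 ((Nat.prime_dvd_prime_iff_eq Nat.prime_two h3.1).1 h4).symm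

theorem Z1_dvd (f : ℤ⟦X⟧) (hodd : ∀ n, 2 ∣ n → PowerSeries.coeff n f = 0) (Y N : ℕ) (h1 : 1 ≤ N)
    (hN : N ≤ Y) : (N : ℤ) ∣ (Z1 f Y : ℤ) * PowerSeries.coeff N f := by
  classical
  by_cases h2N : 2 ∣ N
  · rw [hodd N h2N, mul_zero]
    exact dvd_zero _
  rw [Int.natCast_dvd, Nat.dvd_iff_prime_pow_dvd_dvd]
  intro p k hp hk
  rw [← Int.natCast_dvd, Nat.cast_pow]
  rcases Nat.eq_zero_or_pos k with rfl | hk0
  · simp
  have hpN : p ^ k ≤ N := Nat.le_of_dvd h1 hk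
  have hpk : p ∣ N := (dvd_pow_self p hk0.ne').trans hk
  have hp2 : p ≠ 2 := by
    rintro rfl
    exact h2N hpk
  by_cases ho : O1 f p ∨ p ^ 2 ≤ Y
  · refine Dvd.dvd.mul_right ?_ _
    have hkl : k ≤ Nat.log p Y := Nat.le_log_of_pow_le hp.one_lt (hpN.trans hN)
    have hpY : p ≤ Y := (Nat.le_self_pow hk0.ne' p).trans (hpN.trans hN)
    have hd : p ^ Nat.log p Y ∣ Z1 f Y := by
      unfold Z1
      refine Finset.dvd_prod_of_mem (fun p => p ^ Nat.log p Y) ?_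
      exact Finset.mem_filter.2 ⟨Finset.mem_range.2 (by omega), hp, hp2, ho⟩
    have h2 : p ^ k ∣ Z1 f Y := (pow_dvd_pow p hkl).trans hd
    exact_mod_cast h2
  · refine Dvd.dvd.mul_left ?_ _
    rw [not_or] at ho
    have hk1 : k = 1 := by
      by_contra hne
      have h2k : 2 ≤ k := by omega
      have h3 : p ^ 2 ≤ p ^ k := Nat.pow_le_pow_right hp.pos h2k
      exact ho.2 (h3.trans (hpN.trans hN))
    subst hk1
    obtain ⟨m, rfl⟩ := hpk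
    have h4 := ho.1
    unfold O1 at h4
    push Not at h4
    rw [pow_one]
    exact h4 m h2N

theorem OPDb_sub : th3 - th4 = PowerSeries.C (4 : ℤ) *
    PowerSeries.mk (fun n : ℕ => if ¬ 2 ∣ n ∧ IsSquare n then (1 : ℤ) else 0) := by
  ext n
  rw [map_sub, PowerSeries.coeff_C_mul, PowerSeries.coeff_mk, th4, PowerSeries.coeff_mk, th3,
    PowerSeries.coeff_mk]
  by_cases h : 2 ∣ n
  · have he : Even n := even_iff_two_dvd.2 h
    simp [he.neg_one_pow, h]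
  · have ho : Odd n := Nat.not_even_iff_odd.1 (fun h' => h (even_iff_two_dvd.1 h'))
    have hn : n ≠ 0 := by
      rintro rfl
      exact h (dvd_zero 2)
    by_cases hs : IsSquare n
    · simp [ho.neg_one_pow, h, hn, hs]
    · simp [ho.neg_one_pow, h, hn, hs]

theorem OPDb_add : th3 + th4 = PowerSeries.C (2 : ℤ) *
    PowerSeries.mk (fun n : ℕ => if 2 ∣ n then (if n = 0 then (1 : ℤ) else if IsSquare n then 2 else 0)
      else 0) := by
  ext n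
  rw [map_add, PowerSeries.coeff_C_mul, PowerSeries.coeff_mk, th4, PowerSeries.coeff_mk, th3,
    PowerSeries.coeff_mk]
  by_cases h : 2 ∣ n
  · have he : Even n := even_iff_two_dvd.2 h
    simp only [he.neg_one_pow, h, if_true]
    ring
  · have ho : Odd n := Nat.not_even_iff_odd.1 (fun h' => h (even_iff_two_dvd.1 h'))
    simp only [ho.neg_one_pow, h, if_false]
    ring

/-- `s` has integer coefficients -/
theorem ss_int : ∃ g : ℤ⟦X⟧, ss = PowerSeries.map (Int.castRingHom ℚ) g := by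
  refine ⟨PowerSeries.mk (fun n : ℕ => if ¬ 2 ∣ n ∧ IsSquare n then (1 : ℤ) else 0) *
    PowerSeries.mk (fun n : ℕ => if 2 ∣ n then (if n = 0 then (1 : ℤ) else if IsSquare n then 2 else 0)
      else 0), ?_⟩
  have h1 : th3 ^ 2 - th4 ^ 2 = PowerSeries.C (8 : ℤ) *
      (PowerSeries.mk (fun n : ℕ => if ¬ 2 ∣ n ∧ IsSquare n then (1 : ℤ) else 0) *
      PowerSeries.mk (fun n : ℕ => if 2 ∣ n then
        (if n = 0 then (1 : ℤ) else if IsSquare n then 2 else 0) else 0)) := by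
    have h2 : th3 ^ 2 - th4 ^ 2 = (th3 - th4) * (th3 + th4) := by ring
    have h8 : (PowerSeries.C (8 : ℤ) : ℤ⟦X⟧) = PowerSeries.C (4 : ℤ) * PowerSeries.C (2 : ℤ) := by
      rw [← map_mul]
      norm_num
    rw [h2, OPDb_sub, OPDb_add, h8]
    ring
  have h3 := congrArg (PowerSeries.map (Int.castRingHom ℚ)) h1
  rw [map_sub, map_mul, PowerSeries.map_C] at h3
  have h5 : (PowerSeries.C (1 / 8 : ℚ) : ℚ⟦X⟧) * PowerSeries.C ((Int.castRingHom ℚ) 8) = 1 := by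
    rw [← map_mul]
    norm_num
  rw [ss, U, V, h3, ← mul_assoc, h5, one_mul]

theorem WW_int : ∃ g : ℤ⟦X⟧, WW = PowerSeries.map (Int.castRingHom ℚ) g := by
  refine ⟨dbl ℤ (th3 ^ 2), ?_⟩
  rw [fld_map_dbl, WW, U]

/-- `(Y, a)`-integrality for the denominator `Z` -/
def OPDb_I (Z Y a : ℕ) (g : ℚ⟦X⟧) : Prop :=
  ∀ l ≤ Y, ∃ m : ℤ, (Z : ℚ) ^ a * PowerSeries.coeff l g = m

theorem OPDb_mul {Z Y a b : ℕ} {g h : ℚ⟦X⟧} (hg : OPDb_I Z Y a g) (hh : OPDb_I Z Y b h) :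
    OPDb_I Z Y (a + b) (g * h) := by
  classical
  intro l hl
  rw [PowerSeries.coeff_mul]
  have key : ∀ p ∈ Finset.HasAntidiagonal.antidiagonal l, ∃ m : ℤ,
      (Z : ℚ) ^ (a + b) * (PowerSeries.coeff p.1 g * PowerSeries.coeff p.2 h) = m := by
    intro p hp
    have hp' := Finset.HasAntidiagonal.mem_antidiagonal.1 hp
    obtain ⟨m1, h1⟩ := hg p.1 (by omega)
    obtain ⟨m2, h2⟩ := hh p.2 (by omega)
    refine ⟨m1 * m2, ?_⟩
    push_cast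
    rw [← h1, ← h2]
    ring
  choose! m hm using key
  refine ⟨∑ p ∈ Finset.HasAntidiagonal.antidiagonal l, m p, ?_⟩
  rw [Finset.mul_sum, Int.cast_sum]
  exact Finset.sum_congr rfl hm

theorem OPDb_map (Z Y : ℕ) (g : ℤ⟦X⟧) :
    OPDb_I Z Y 0 (PowerSeries.map (Int.castRingHom ℚ) g) := by
  intro l _
  refine ⟨PowerSeries.coeff l g, ?_⟩
  rw [PowerSeries.coeff_map, pow_zero, one_mul]
  rfl

theorem OPDb_one (Z Y : ℕ) : OPDb_I Z Y 0 1 := by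
  have h := OPDb_map Z Y 1
  rwa [map_one] at h

theorem OPDb_pow {Z Y a : ℕ} {g : ℚ⟦X⟧} (hg : OPDb_I Z Y a g) (k : ℕ) :
    OPDb_I Z Y (a * k) (g ^ k) := by
  induction k with
  | zero => simpa using OPDb_one Z Y
  | succ k ih =>
    rw [pow_succ, Nat.mul_succ]
    exact OPDb_mul ih hg

theorem OPDb_mono {Z Y a b : ℕ} {g : ℚ⟦X⟧} (hg : OPDb_I Z Y a g) (hab : a ≤ b) :
    OPDb_I Z Y b g := by
  intro l hl
  obtain ⟨m, hm⟩ := hg l hl
  refine ⟨(Z : ℤ) ^ (b - a) * m, ?_⟩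
  push_cast
  rw [← hm, ← mul_assoc, ← pow_add, Nat.sub_add_cancel hab]

theorem OPDb_Dq {Z Y a : ℕ} {g : ℚ⟦X⟧} (hg : OPDb_I Z Y a g) : OPDb_I Z Y a (Dq ℚ g) := by
  intro l hl
  obtain ⟨m, hm⟩ := hg l hl
  refine ⟨l * m, ?_⟩
  rw [coeff_Dq]
  push_cast
  rw [← hm]
  ring

theorem OPDb_F1 (f : ℤ⟦X⟧) (hodd : ∀ n, 2 ∣ n → PowerSeries.coeff n f = 0) (Y : ℕ) :
    OPDb_I (Z1 f Y) Y 1 (F1 f) := by
  intro N hN
  rw [pow_one]
  rcases Nat.eq_zero_or_pos N with rfl | h1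
  · exact ⟨0, by simp [F1]⟩
  · obtain ⟨m, hm⟩ := Z1_dvd f hodd Y N h1 hN
    refine ⟨m, ?_⟩
    have hN0 : (N : ℚ) ≠ 0 := by
      have : N ≠ 0 := by omega
      exact_mod_cast this
    have h2 : ((Z1 f Y : ℤ) : ℚ) * ((PowerSeries.coeff N f : ℤ) : ℚ) = ((N : ℤ) : ℚ) * (m : ℚ) := by
      exact_mod_cast hm
    have h3 : PowerSeries.coeff N (F1 f) = ((PowerSeries.coeff N f : ℤ) : ℚ) / N := by
      rw [F1, PowerSeries.coeff_mk]
    rw [h3, mul_div_assoc', div_eq_iff hN0]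
    push_cast at h2
    rw [h2]
    ring

theorem den_Ph (f : ℤ⟦X⟧) (hodd : ∀ n, 2 ∣ n → PowerSeries.coeff n f = 0) (κ L n : ℕ)
    (x : Ix κ L n) (Y l : ℕ) (hl : l ≤ Y) :
    ∃ m : ℤ, (Z1 f Y : ℚ) ^ L * PowerSeries.coeff l (Ph f κ L n x) = m := by
  obtain ⟨gs, hgs⟩ := ss_int
  obtain ⟨gw, hgw⟩ := WW_int
  have hs : OPDb_I (Z1 f Y) Y 0 ss := by
    rw [hgs]
    exact OPDb_map _ _ _
  have hw : OPDb_I (Z1 f Y) Y 0 WW := by
    rw [hgw]
    exact OPDb_map _ _ _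
  have h := OPDb_mul (OPDb_mul (OPDb_mul
    (OPDb_pow hw (n + 3 * (2 * κ * L) - (x.1 : ℕ) - 3 * (x.2.1 : ℕ) - κ * (x.2.2 : ℕ)))
    (OPDb_pow hs (x.1 : ℕ))) (OPDb_pow (OPDb_Dq hw) (x.2.1 : ℕ)))
    (OPDb_pow (OPDb_F1 f hodd Y) (x.2.2 : ℕ))
  have h2 := OPDb_mono (b := L) h (by
    have h3 := x.2.2.2
    omega)
  exact h2 l hl

theorem den_PhS (f : ℤ⟦X⟧) (hodd : ∀ n, 2 ∣ n → PowerSeries.coeff n f = 0) (κ L n : ℕ)
    (t : Ix κ L n → ℤ) (Y l : ℕ) (hl : l ≤ Y) :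
    ∃ m : ℤ, (Z1 f Y : ℚ) ^ L * PowerSeries.coeff l (PhS f κ L n t) = m := by
  classical
  choose m hm using fun x => den_Ph f hodd κ L n x Y l hl
  refine ⟨∑ x, t x * m x, ?_⟩
  rw [PhS, map_sum, Finset.mul_sum, Int.cast_sum]
  refine Finset.sum_congr rfl fun x _ => ?_
  rw [PowerSeries.coeff_C_mul, Int.cast_mul, ← hm x]
  ring

end Pool.Agent.H68.OP
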