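import Pool.Agent.H68.OP.Pga

/-!
# Row OPCb (project OP, block C): Siegel's lemma modulo `2^m`

`v s ∈ span S`, 2-integral, `s ∈ I` (a finite type), `2^(m |S|) < (B+1)^|I|`.  `V = span S` is finite dimensional with
`finrank ≤ S.card` (`finrank_span_finset_le_card`, `FiniteDimensional.span_finset`).
For `a : I → Fin (B+1)` let `X a = ∑ s, C (a s : ℚ) * v s ∈ V`, 2-integral.  If `X a = X a'` for some `a ≠ a'` take
`t s = a s - a' s` and `z = 0`.  Otherwise `X` is injective, `T = univ.image X` has `(B+1)^|I|` elements and `pig` (with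
`d = S.card`) gives `a ≠ a'` with `X a - X a' = C (2^m) * z`; take `t s = a s - a' s`; `|t s| ≤ B`.
-/

open PowerSeries

namespace Pool.Agent.H68.OP

theorem siegel2 {I : Type*} [Fintype I] (S : Finset ℚ⟦X⟧) (v : I → ℚ⟦X⟧)
    (hv : ∀ s, v s ∈ Submodule.span ℚ (S : Set ℚ⟦X⟧) ∧ I2 (v s)) (m B : ℕ)
    (h : 2 ^ (m * S.card) < (B + 1) ^ Fintype.card I) :
    ∃ t : I → ℤ, t ≠ 0 ∧ (∀ s, |t s| ≤ B) ∧
      ∃ z, I2 z ∧ ∑ s, PowerSeries.C (t s : ℚ) * v s = PowerSeries.C ((2 : ℚ) ^ m) * z := by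
  classical
  have h0 : I2 (0 : ℚ⟦X⟧) := by
    intro n
    rw [map_zero, padicNorm.zero]
    exact zero_le_one
  have hfd : FiniteDimensional ℚ (Submodule.span ℚ (S : Set ℚ⟦X⟧)) :=
    FiniteDimensional.span_finset ℚ S
  have hfr : Module.finrank ℚ (Submodule.span ℚ (S : Set ℚ⟦X⟧)) ≤ S.card :=
    finrank_span_finset_le_card S
  obtain ⟨Y, hY⟩ : ∃ Y : (I → Fin (B + 1)) → ℚ⟦X⟧,
      ∀ a, Y a = ∑ s, PowerSeries.C (((a s : ℕ) : ℚ)) * v s := ⟨_, fun _ => rfl⟩
  have hYV : ∀ a, Y a ∈ Submodule.span ℚ (S : Set ℚ⟦X⟧) ∧ I2 (Y a) := by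
    intro a
    rw [hY]
    constructor
    · refine Submodule.sum_mem _ fun s _ => ?_
      rw [← PowerSeries.smul_eq_C_mul]
      exact Submodule.smul_mem _ _ (hv s).1
    · refine Finset.sum_induction _ I2 (fun x y hx hy => I2.add hx hy) h0 fun s _ => ?_
      exact I2.C_mul (padicNorm.of_nat _) (hv s).2
  have key : ∀ a a' : I → Fin (B + 1), a ≠ a' → ∀ z, I2 z →
      Y a - Y a' = PowerSeries.C ((2 : ℚ) ^ m) * z →
      ∃ t : I → ℤ, t ≠ 0 ∧ (∀ s, |t s| ≤ B) ∧
      ∃ z, I2 z ∧ ∑ s, PowerSeries.C (t s : ℚ) * v s = PowerSeries.C ((2 : ℚ) ^ m) * z := by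
    intro a a' haa z hz hsub
    refine ⟨fun s => ((a s : ℕ) : ℤ) - ((a' s : ℕ) : ℤ), ?_, ?_, z, hz, ?_⟩
    · intro h1
      apply haa
      funext s
      have h2 := congrFun h1 s
      simp only [Pi.zero_apply] at h2
      ext
      omega
    · intro s
      have h1 := (a s).2
      have h2 := (a' s).2
      show |((a s : ℕ) : ℤ) - ((a' s : ℕ) : ℤ)| ≤ B
      rw [abs_le]
      constructor <;> omega
    · rw [← hsub, hY, hY, ← Finset.sum_sub_distrib]
      refine Finset.sum_congr rfl fun s _ => ?_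
      rw [← sub_mul, ← map_sub]
      push_cast
      rfl
  by_cases hinj : Function.Injective Y
  · have hcard : (Finset.univ.image Y).card = (B + 1) ^ Fintype.card I := by
      rw [Finset.card_image_of_injective _ hinj, Finset.card_univ, Fintype.card_fun,
        Fintype.card_fin]
    obtain ⟨x, hx, y, hy, hxy, z, hz, hsub⟩ := pig m S.card _ hfd hfr (Finset.univ.image Y)
      (fun x hx => by
        obtain ⟨a, -, rfl⟩ := Finset.mem_image.1 hx
        exact hYV a) (by rw [hcard]; exact h)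
    obtain ⟨a, -, rfl⟩ := Finset.mem_image.1 hx
    obtain ⟨a', -, rfl⟩ := Finset.mem_image.1 hy
    exact key a a' (fun h1 => hxy (by rw [h1])) z hz hsub
  · unfold Function.Injective at hinj
    push Not at hinj
    obtain ⟨a, a', h1, h2⟩ := hinj
    exact key a a' h2 0 h0 (by rw [h1, sub_self, mul_zero])

end Pool.Agent.H68.OP
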