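import Pool.Agent.H68.OP.Sz
import Pool.Agent.H68.OP.Dn
import Pool.Agent.H68.OP.Pgb

/-!
# Row OPDc (project OP, block D): the core inequality

`TwoAd f κ`: the 2-adic input (block B); `h4`: `4 C (H+1)(n+m+H+1) ≤ N = (n+1)(κL+1)(L+1)`, `H = 2κL`.
1. `S`, `v x`, `w x` from `TwoAd` with these `n, H, m` (`j + κ l ≤ 2 κ L` for `x ∈ Ix`): `Ph x = v x + C (2^m) * w x`.
2. `B0 = 2^(m/4+1)`: `(B0+1)^N > 2^((m/4+1) N) ≥ 2^(m |S|)` as `(m/4+1) N ≥ 4 |S| (m/4+1) ≥ m |S|`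
   (`Fintype.card (Ix κ L n) = (n+1)(κL+1)(L+1)`).  `siegel2`: `t ≠ 0`, `|t x| ≤ B0`, `∑ t_x v_x = C (2^m) * z`.
   So `PhS t = C (2^m) * (z + ∑ C (t x) * w x)` and `z' = z + ..` is 2-integral (integers are 2-integral).
3. `hze`: `l ≤ Y` with `c_l = coeff l (PhS t) ≠ 0`.  `Z1^L c_l = M` is a nonzero integer (`den_PhS`, `Z1_pos`), and
   `padicNorm 2 M = padicNorm 2 (Z1^L) padicNorm 2 (2^m) padicNorm 2 (coeff l z') ≤ 2^(-m)`, so `2^m ∣ M`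
   (`padicNorm.dvd_iff_norm_le`), `|M| ≥ 2^m`.
4. `PhS_bd` with `T = B0`, and `(ρ⁻¹)^l ≤ (ρ⁻¹)^Y`.
-/

open PowerSeries

namespace Pool.Agent.H68.OP

open Pool.Agent.H85.OT

/-- the 2-adic input: `Ph` modulo `2^m` lies in a space of small dimension -/
def TwoAd (f : ℤ⟦X⟧) (κ C : ℕ) : Prop :=
  ∀ n H m : ℕ, ∃ S : Finset ℚ⟦X⟧, S.card ≤ C * (H + 1) * (n + m + H + 1) ∧
    ∀ i ≤ n, ∀ j l : ℕ, j + κ * l ≤ H →
      ∃ v ∈ Submodule.span ℚ (S : Set ℚ⟦X⟧), I2 v ∧ ∃ w, I2 w ∧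
        WW ^ (n + 3 * H - i - 3 * j - κ * l) * ss ^ i * (Dq ℚ WW) ^ j * F1 f ^ l =
          v + PowerSeries.C ((2 : ℚ) ^ m) * w

private theorem Co_I2_zero : I2 0 := by
  intro n
  rw [map_zero, padicNorm.zero]
  exact zero_le_one

private theorem Co_I2_sum {I : Type*} [Fintype I] (g : I → ℚ⟦X⟧) (h : ∀ x, I2 (g x)) : I2 (∑ x, g x) :=
  Finset.sum_induction g I2 (fun _ _ ha hb => ha.add hb) Co_I2_zero (fun x _ => h x)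

private theorem Co_pow {s N m : ℕ} (h : 4 * s ≤ N) (hN : 0 < N) : 2 ^ (m * s) < (2 ^ (m / 4 + 1) + 1) ^ N := by
  have h1 : m * s ≤ (m / 4 + 1) * N := by
    have h2 : m ≤ (m / 4 + 1) * 4 := by omega
    calc m * s ≤ (m / 4 + 1) * 4 * s := Nat.mul_le_mul_right s h2
      _ = (m / 4 + 1) * (4 * s) := by ring
      _ ≤ (m / 4 + 1) * N := Nat.mul_le_mul_left _ h
  calc 2 ^ (m * s) ≤ 2 ^ ((m / 4 + 1) * N) := Nat.pow_le_pow_right (by norm_num) h1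
    _ = (2 ^ (m / 4 + 1)) ^ N := pow_mul _ _ _
    _ < (2 ^ (m / 4 + 1) + 1) ^ N := Nat.pow_lt_pow_left (Nat.lt_succ_self _) hN.ne'

private theorem Co_abs {M : ℤ} {z : ℤ} {c y : ℚ} {m : ℕ} (hM : (z : ℚ) * c = M) (hM0 : M ≠ 0)
    (hc : c = (2 : ℚ) ^ m * y) (hy : padicNorm 2 y ≤ 1) : (2 : ℤ) ^ m ≤ |M| := by
  have hp : Fact (Nat.Prime 2) := ⟨Nat.prime_two⟩
  have h1 : padicNorm 2 (M : ℚ) ≤ ((2 : ℕ) : ℚ) ^ (-(m : ℤ)) := by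
    rw [← hM, hc, padicNorm.mul, padicNorm.mul]
    have h2 : padicNorm 2 ((2 : ℚ) ^ m) = ((2 : ℕ) : ℚ) ^ (-(m : ℤ)) := by
      have h3 : padicNorm 2 ((2 : ℚ) ^ m) = (padicNorm 2 (2 : ℚ)) ^ m := IsAbsoluteValue.abv_pow (padicNorm 2) 2 m
      have h4 : padicNorm 2 (2 : ℚ) = ((2 : ℕ) : ℚ)⁻¹ := by
        have h5 := padicNorm.padicNorm_p (p := 2) one_lt_two
        exact_mod_cast h5
      rw [h3, h4, zpow_neg, zpow_natCast, inv_pow]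
    rw [h2]
    have h4 : padicNorm 2 ((z : ℚ)) ≤ 1 := padicNorm.of_int z
    have h5 : (0 : ℚ) ≤ ((2 : ℕ) : ℚ) ^ (-(m : ℤ)) := by positivity
    have h6 : 0 ≤ padicNorm 2 y := padicNorm.nonneg y
    have h7 : ((2 : ℕ) : ℚ) ^ (-(m : ℤ)) * padicNorm 2 y ≤ ((2 : ℕ) : ℚ) ^ (-(m : ℤ)) := mul_le_of_le_one_right h5 hy
    calc padicNorm 2 ((z : ℚ)) * (((2 : ℕ) : ℚ) ^ (-(m : ℤ)) * padicNorm 2 y)
        ≤ 1 * (((2 : ℕ) : ℚ) ^ (-(m : ℤ)) * padicNorm 2 y) := mul_le_mul_of_nonneg_right h4 (mul_nonneg h5 h6)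
      _ ≤ ((2 : ℕ) : ℚ) ^ (-(m : ℤ)) := by
        rw [one_mul]
        exact h7
  have h8 : ((2 ^ m : ℕ) : ℤ) ∣ M := padicNorm.dvd_iff_norm_le.2 h1
  have h9 := Int.le_of_dvd (abs_pos.2 hM0) ((dvd_abs _ _).2 h8)
  rw [Nat.cast_pow] at h9
  exact_mod_cast h9

theorem core (f : ℤ⟦X⟧) (hodd : ∀ n, 2 ∣ n → PowerSeries.coeff n f = 0) (κ C : ℕ)
    (h2 : TwoAd f κ C) (L n m Y : ℕ)
    (h4 : 4 * (C * (2 * κ * L + 1) * (n + m + 2 * κ * L + 1)) ≤ (n + 1) * (κ * L + 1) * (L + 1))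
    (hze : ∀ t : Ix κ L n → ℤ, t ≠ 0 → ∃ l ≤ Y, PowerSeries.coeff l (PhS f κ L n t) ≠ 0)
    {ρ B : ℝ} (hρ : 0 < ρ) (hρ1 : ρ < 1) (hB : 1 ≤ B) (h1 : Bd ρ B (F1 f))
    (h3 : Bd ρ B (Dq ℚ WW)) :
    (2 : ℝ) ^ m ≤ (Z1 f Y : ℝ) ^ L * (((n + 1) * (κ * L + 1) * (L + 1) : ℕ) * (2 : ℝ) ^ (m / 4 + 1) *
        (MR ρ ^ (n + 6 * κ * L) * B ^ ((κ + 1) * L) * (ρ⁻¹) ^ Y)) := by
  have hp : Fact (Nat.Prime 2) := ⟨Nat.prime_two⟩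
  obtain ⟨S, hS, hrep⟩ := h2 n (2 * κ * L) m
  have hrep2 : ∀ x : Ix κ L n, ∃ v ∈ Submodule.span ℚ (S : Set ℚ⟦X⟧), I2 v ∧ ∃ w, I2 w ∧
      Ph f κ L n x = v + PowerSeries.C ((2 : ℚ) ^ m) * w := by
    intro x
    have hi : (x.1 : ℕ) ≤ n := Nat.lt_succ_iff.1 x.1.2
    have hj : (x.2.1 : ℕ) ≤ κ * L := Nat.lt_succ_iff.1 x.2.1.2
    have hl : (x.2.2 : ℕ) ≤ L := Nat.lt_succ_iff.1 x.2.2.2
    have hjl : (x.2.1 : ℕ) + κ * (x.2.2 : ℕ) ≤ 2 * κ * L := by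
      have h5 : κ * (x.2.2 : ℕ) ≤ κ * L := Nat.mul_le_mul_left κ hl
      calc (x.2.1 : ℕ) + κ * (x.2.2 : ℕ) ≤ κ * L + κ * L := Nat.add_le_add hj h5
        _ = 2 * κ * L := by ring
    exact hrep (x.1 : ℕ) hi (x.2.1 : ℕ) (x.2.2 : ℕ) hjl
  choose v hvS hvI w hwI hvw using hrep2
  have hcard : Fintype.card (Ix κ L n) = (n + 1) * (κ * L + 1) * (L + 1) := by
    rw [Fintype.card_prod, Fintype.card_prod, Fintype.card_fin, Fintype.card_fin, Fintype.card_fin, mul_assoc]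
  have hNpos : 0 < (n + 1) * (κ * L + 1) * (L + 1) := by positivity
  have hlt : 2 ^ (m * S.card) < (2 ^ (m / 4 + 1) + 1) ^ Fintype.card (Ix κ L n) := by
    rw [hcard]
    exact Co_pow ((Nat.mul_le_mul_left 4 hS).trans h4) hNpos
  obtain ⟨t, ht0, htB, z, hz, hsum⟩ := siegel2 S v (fun x => ⟨hvS x, hvI x⟩) m (2 ^ (m / 4 + 1)) hlt
  obtain ⟨l, hlY, hcl⟩ := hze t ht0
  obtain ⟨z', hz'⟩ : ∃ z' : ℚ⟦X⟧, z' = z + ∑ x, PowerSeries.C (t x : ℚ) * w x := ⟨_, rfl⟩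
  have hz'I : I2 z' := by
    rw [hz']
    exact hz.add (Co_I2_sum _ fun x => (hwI x).C_mul (padicNorm.of_int (t x)))
  have hPhS : PhS f κ L n t = PowerSeries.C ((2 : ℚ) ^ m) * z' := by
    unfold PhS
    rw [hz', mul_add, ← hsum, Finset.mul_sum, ← Finset.sum_add_distrib]
    apply Finset.sum_congr rfl
    intro x _
    rw [hvw x]
    ring
  have hcoef : PowerSeries.coeff l (PhS f κ L n t) = (2 : ℚ) ^ m * PowerSeries.coeff l z' := by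
    rw [hPhS, PowerSeries.coeff_C_mul]
  obtain ⟨M, hM⟩ := den_PhS f hodd κ L n t Y l hlY
  have hZ : 0 < Z1 f Y := Z1_pos f Y
  have hZq : ((Z1 f Y : ℚ)) ^ L ≠ 0 := pow_ne_zero _ (Nat.cast_ne_zero.2 hZ.ne')
  have hM0 : M ≠ 0 := by
    intro h
    rw [h, Int.cast_zero] at hM
    exact (mul_ne_zero hZq hcl) hM
  have hM' : (((Z1 f Y : ℤ) ^ L : ℤ) : ℚ) * PowerSeries.coeff l (PhS f κ L n t) = M := by
    rw [← hM]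
    push_cast
    rfl
  have habs : (2 : ℤ) ^ m ≤ |M| := Co_abs hM' hM0 hcoef (hz'I l)
  have habsR : (2 : ℝ) ^ m ≤ |(M : ℝ)| := by
    exact_mod_cast habs
  have hMR : (M : ℝ) = (Z1 f Y : ℝ) ^ L * ((PowerSeries.coeff l (PhS f κ L n t) : ℚ) : ℝ) := by
    have h5 : ((M : ℚ) : ℝ) = (((Z1 f Y : ℚ) ^ L * PowerSeries.coeff l (PhS f κ L n t) : ℚ) : ℝ) := by
      rw [hM]
    rw [Rat.cast_intCast] at h5
    rw [h5, Rat.cast_mul, Rat.cast_pow, Rat.cast_natCast]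
  have hbd := PhS_bd f κ L n t (2 ^ (m / 4 + 1)) htB hρ hρ1 hB h1 h3 l
  have hZR : (0 : ℝ) ≤ (Z1 f Y : ℝ) ^ L := pow_nonneg (Nat.cast_nonneg _) _
  have hinv : 1 ≤ ρ⁻¹ := (one_le_inv₀ hρ).2 hρ1.le
  have hpw : (ρ⁻¹) ^ l ≤ (ρ⁻¹) ^ Y := pow_le_pow_right₀ hinv hlY
  have hMRpos : 0 ≤ MR ρ := by
    unfold MR
    positivity
  have hB0 : 0 ≤ B := zero_le_one.trans hB
  have hfin : MR ρ ^ (n + 6 * κ * L) * B ^ ((κ + 1) * L) * (ρ⁻¹) ^ l ≤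
      MR ρ ^ (n + 6 * κ * L) * B ^ ((κ + 1) * L) * (ρ⁻¹) ^ Y :=
    mul_le_mul_of_nonneg_left hpw (mul_nonneg (pow_nonneg hMRpos _) (pow_nonneg hB0 _))
  have hcast : (((2 ^ (m / 4 + 1) : ℕ)) : ℝ) = (2 : ℝ) ^ (m / 4 + 1) := by
    push_cast
    rfl
  rw [hcast] at hbd
  calc (2 : ℝ) ^ m ≤ |(M : ℝ)| := habsR
    _ = (Z1 f Y : ℝ) ^ L * |((PowerSeries.coeff l (PhS f κ L n t) : ℚ) : ℝ)| := by
      rw [hMR, abs_mul, abs_of_nonneg hZR]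
    _ ≤ (Z1 f Y : ℝ) ^ L * ((((n + 1) * (κ * L + 1) * (L + 1) : ℕ) : ℝ) * (2 : ℝ) ^ (m / 4 + 1) *
        (MR ρ ^ (n + 6 * κ * L) * B ^ ((κ + 1) * L) * (ρ⁻¹) ^ l)) :=
      mul_le_mul_of_nonneg_left hbd hZR
    _ ≤ (Z1 f Y : ℝ) ^ L * ((((n + 1) * (κ * L + 1) * (L + 1) : ℕ) : ℝ) * (2 : ℝ) ^ (m / 4 + 1) *
        (MR ρ ^ (n + 6 * κ * L) * B ^ ((κ + 1) * L) * (ρ⁻¹) ^ Y)) :=
      mul_le_mul_of_nonneg_left (mul_le_mul_of_nonneg_left hfin (by positivity)) hZR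

end Pool.Agent.H68.OP
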