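import Mathlib

/-!
# Row OPCa (project OP, block C): the pigeonhole principle in a saturated lattice

`V` a finite dimensional `ℚ`-subspace of `ℚ⟦X⟧`, `Λ = {v ∈ V : 2-integral coefficients}`.
* `exists_res`: `x = a/b` with `b` odd (`padicNorm 2 x ≤ 1`); choose `u` with `b u ≡ 1 mod 2^m` and
  `r = (a u) mod 2^m`; `x - r = (a - r b)/b` and `2^m ∣ a - r b`.
* `exists_odd`: a nonzero `v ∈ Λ`: let `e` be the minimum over `n` of the 2-adic valuations of the nonzero coefficients
  (natural numbers as `v` is 2-integral), attained at `k`; `v' = C (2^(-e)) * v ∈ V`, 2-integral and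
  `padicNorm 2 (coeff k v') = 1`.
* `pig`: induction on `d` (for all `V`, `T`).  If `Λ = 0` (in particular if `d = 0`) then `T ⊆ {0}` has at most one element,
  but `1 ≤ 2^(m d) < T.card`.  Otherwise take `v, k` from `exists_odd`, `c = coeff k v` (`padicNorm 2 c = 1`); `d ≥ 1`;
  `V' = {w ∈ V : coeff k w = 0}` has `finrank V' < finrank V` (proper subspace: `v ∉ V'`;
  `Submodule.finrank_lt_finrank_of_lt`).  Classify `x ∈ T` by the residue `r(x) < 2^m` of `coeff k x` (`exists_res`, choose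
  a function): `2^m · 2^(m(d-1)) = 2^(m d) < T.card`, so some class `T1 ⊆ T` has more than `2^(m(d-1))` elements
  (`Finset.exists_lt_card_fiber_of_mul_lt_card_of_maps_to`).  For `x ∈ T1` put
  `φ x = x - C (coeff k x / c) * v ∈ V'`, 2-integral.  If `φ x = φ y` for some `x ≠ y` in `T1`, then
  `x - y = C ((coeff k x - coeff k y)/c) * v` and `coeff k x - coeff k y = 2^m u`, `u` 2-integral: take
  `z = C (u/c) * v`.  Otherwise `T1.image φ` has the same cardinality and by induction `φ x - φ y = C (2^m) * z'`, so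
  `x - y = C (2^m) * (z' + C (u/c) * v)`.
-/

open PowerSeries

namespace Pool.Agent.H68.OP

/-- 2-integral coefficients -/
def I2 (y : ℚ⟦X⟧) : Prop := ∀ n, padicNorm 2 (PowerSeries.coeff n y) ≤ 1

theorem I2.add {x y : ℚ⟦X⟧} (hx : I2 x) (hy : I2 y) : I2 (x + y) := by
  intro n
  rw [map_add]
  exact padicNorm.nonarchimedean.trans (max_le (hx n) (hy n))

theorem I2.sub {x y : ℚ⟦X⟧} (hx : I2 x) (hy : I2 y) : I2 (x - y) := by
  intro n
  rw [map_sub]
  exact padicNorm.sub.trans (max_le (hx n) (hy n))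

theorem I2.C_mul {c : ℚ} (hc : padicNorm 2 c ≤ 1) {x : ℚ⟦X⟧} (hx : I2 x) :
    I2 (PowerSeries.C c * x) := by
  intro n
  rw [PowerSeries.coeff_C_mul, padicNorm.mul]
  exact mul_le_one₀ hc (padicNorm.nonneg _) (hx n)

theorem exists_res (x : ℚ) (hx : padicNorm 2 x ≤ 1) (m : ℕ) :
    ∃ r : ℕ, r < 2 ^ m ∧ ∃ y : ℚ, padicNorm 2 y ≤ 1 ∧ x - r = 2 ^ m * y := by
  have hden0 : (x.den : ℚ) ≠ 0 := by exact_mod_cast x.den_nz
  have hxd : x * x.den = x.num := Rat.mul_den_eq_num x
  have hodd : ¬ 2 ∣ x.den := by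
    intro h2
    have h3 : padicNorm 2 (x.den : ℚ) < 1 := (padicNorm.nat_lt_one_iff _).2 h2
    have h4 : padicNorm 2 (x.num : ℚ) < 1 := by
      rw [← hxd, padicNorm.mul]
      calc padicNorm 2 x * padicNorm 2 (x.den : ℚ) ≤ 1 * padicNorm 2 (x.den : ℚ) :=
            mul_le_mul_of_nonneg_right hx (padicNorm.nonneg _)
        _ < 1 := by rw [one_mul]; exact h3
    have h5 : ((2 : ℕ) : ℤ) ∣ x.num := (padicNorm.int_lt_one_iff _).1 h4
    have h6 : 2 ∣ x.num.natAbs := Int.natCast_dvd.1 h5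
    have := Nat.dvd_gcd h6 h2
    rw [x.reduced] at this
    omega
  have hnorm : padicNorm 2 (x.den : ℚ) = 1 := (padicNorm.nat_eq_one_iff _).2 hodd
  have hcop : IsCoprime (x.den : ℤ) ((2 : ℤ) ^ m) := by
    refine IsCoprime.pow_right ?_
    have : Nat.Coprime x.den 2 := ((Nat.Prime.coprime_iff_not_dvd Nat.prime_two).2 hodd).symm
    exact_mod_cast this.isCoprime
  obtain ⟨u, v, huv⟩ := hcop
  have h2m : (0 : ℤ) < 2 ^ m := by positivity
  set r : ℤ := (x.num * u) % 2 ^ m with hr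
  set q : ℤ := (x.num * u) / 2 ^ m with hq
  have hqr : x.num * u = 2 ^ m * q + r := (Int.mul_ediv_add_emod _ _).symm
  have hr0 : 0 ≤ r := Int.emod_nonneg _ h2m.ne'
  have hr1 : r < 2 ^ m := Int.emod_lt_of_pos _ h2m
  refine ⟨r.toNat, ?_, (x.num * v + q * x.den) / x.den, ?_, ?_⟩
  · have : ((r.toNat : ℕ) : ℤ) < ((2 ^ m : ℕ) : ℤ) := by
      rw [Int.toNat_of_nonneg hr0]; push_cast; exact hr1
    exact_mod_cast this
  · rw [padicNorm.div, hnorm, div_one]
    exact_mod_cast padicNorm.of_int (p := 2) (x.num * v + q * x.den)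
  · have hcast : ((r.toNat : ℕ) : ℚ) = (r : ℚ) := by
      have : ((r.toNat : ℕ) : ℤ) = r := Int.toNat_of_nonneg hr0
      exact_mod_cast this
    rw [hcast]
    have e1 : (x.num : ℚ) * u = 2 ^ m * q + r := by exact_mod_cast hqr
    have e2 : (u : ℚ) * x.den + v * 2 ^ m = 1 := by exact_mod_cast huv
    have key : (x - r) * x.den = 2 ^ m * (x.num * v + q * x.den) := by
      rw [sub_mul, hxd]
      linear_combination (-(x.num : ℚ)) * e2 + (x.den : ℚ) * e1
    rw [mul_div_assoc', ← key, mul_div_cancel_right₀ _ hden0]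

theorem exists_odd (V : Submodule ℚ ℚ⟦X⟧) (v : ℚ⟦X⟧) (hv : v ∈ V) (hv0 : v ≠ 0) (hI : I2 v) :
    ∃ w ∈ V, I2 w ∧ ∃ k, padicNorm 2 (PowerSeries.coeff k w) = 1 := by
  classical
  have hval : ∀ n, PowerSeries.coeff n v ≠ 0 →
      ∃ e : ℕ, padicNorm 2 (PowerSeries.coeff n v) = (2 : ℚ) ^ (-(e : ℤ)) := by
    intro n hn
    obtain ⟨z, hz⟩ := padicNorm.values_discrete (p := 2) hn
    have h1 := hI n
    rw [hz] at h1
    have hz0 : 0 ≤ z := by
      by_contra hneg
      push Not at hneg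
      have : (1 : ℚ) < ((2 : ℕ) : ℚ) ^ (-z) := by
        apply one_lt_zpow₀ (by norm_num) (by omega)
      linarith
    refine ⟨z.toNat, ?_⟩
    rw [hz, Int.toNat_of_nonneg hz0]
    norm_num
  have hex : ∃ e : ℕ, ∃ n, padicNorm 2 (PowerSeries.coeff n v) = (2 : ℚ) ^ (-(e : ℤ)) := by
    have : ∃ n, PowerSeries.coeff n v ≠ 0 := by
      by_contra h
      push Not at h
      exact hv0 (PowerSeries.ext fun n => by rw [h n, map_zero])
    obtain ⟨n, hn⟩ := this
    obtain ⟨e, he⟩ := hval n hn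
    exact ⟨e, n, he⟩
  obtain ⟨k, hk⟩ := Nat.find_spec hex
  set e := Nat.find hex with he
  have hmax : ∀ n, padicNorm 2 (PowerSeries.coeff n v) ≤ (2 : ℚ) ^ (-(e : ℤ)) := by
    intro n
    by_cases hn : PowerSeries.coeff n v = 0
    · rw [hn, padicNorm.zero]; positivity
    · obtain ⟨e', he'⟩ := hval n hn
      have : e ≤ e' := Nat.find_min' hex ⟨n, he'⟩
      rw [he']
      exact zpow_le_zpow_right₀ (by norm_num) (by omega)
  have hc : padicNorm 2 (((2 : ℚ) ^ e)⁻¹) = (2 : ℚ) ^ (e : ℤ) := by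
    have h2 : padicNorm 2 ((2 : ℚ)) = (2 : ℚ)⁻¹ := by
      have := padicNorm.padicNorm_p_of_prime (p := 2)
      simpa using this
    have h3 : ∀ e : ℕ, padicNorm 2 ((2 : ℚ) ^ e) = ((2 : ℚ)⁻¹) ^ e := by
      intro e
      induction e with
      | zero => simp
      | succ e ih => rw [pow_succ, padicNorm.mul, ih, h2, pow_succ]
    have h4 : padicNorm 2 (((2 : ℚ) ^ e)⁻¹) = 1 / padicNorm 2 ((2 : ℚ) ^ e) := by
      rw [inv_eq_one_div, padicNorm.div, padicNorm.one]
    rw [h4, h3]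
    simp
  have h2e : (2 : ℚ) ^ (e : ℤ) * (2 : ℚ) ^ (-(e : ℤ)) = 1 := by
    rw [← zpow_add₀ (by norm_num)]
    simp
  refine ⟨PowerSeries.C (((2 : ℚ) ^ e)⁻¹) * v, ?_, ?_, k, ?_⟩
  · rw [← PowerSeries.smul_eq_C_mul]
    exact V.smul_mem _ hv
  · intro n
    rw [PowerSeries.coeff_C_mul, padicNorm.mul, hc, ← h2e]
    exact mul_le_mul_of_nonneg_left (hmax n) (by positivity)
  · rw [PowerSeries.coeff_C_mul, padicNorm.mul, hc, hk, h2e]

theorem pig (m : ℕ) (d : ℕ) : ∀ (V : Submodule ℚ ℚ⟦X⟧), FiniteDimensional ℚ V →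
    Module.finrank ℚ V ≤ d → ∀ T : Finset ℚ⟦X⟧, (∀ x ∈ T, x ∈ V ∧ I2 x) →
      2 ^ (m * d) < T.card →
      ∃ x ∈ T, ∃ y ∈ T, x ≠ y ∧ ∃ z, I2 z ∧ x - y = PowerSeries.C ((2 : ℚ) ^ m) * z := by
  classical
  induction d with
  | zero =>
    intro V hV hd T hT hc
    exfalso
    have hV0 : V = ⊥ := Submodule.finrank_eq_zero.1 (Nat.le_zero.1 hd)
    have hsub : T ⊆ {0} := by
      intro x hx
      have := (hT x hx).1
      rw [hV0, Submodule.mem_bot] at this
      rw [this]
      exact Finset.mem_singleton_self _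
    have := Finset.card_le_card hsub
    rw [Finset.card_singleton] at this
    simp at hc
    omega
  | succ d ih =>
    intro V hV hd T hT hc
    by_cases h0 : ∃ v ∈ V, v ≠ 0 ∧ I2 v
    swap
    · exfalso
      push Not at h0
      have hsub : T ⊆ {0} := by
        intro x hx
        obtain ⟨h1, h2⟩ := hT x hx
        rw [Finset.mem_singleton]
        by_contra h3
        exact h0 x h1 h3 h2
      have := Finset.card_le_card hsub
      rw [Finset.card_singleton] at this
      have h1 : 0 < 2 ^ (m * (d + 1)) := by positivity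
      omega
    obtain ⟨v, hv, hv0, hvI⟩ := h0
    obtain ⟨w, hw, hwI, k, hk⟩ := exists_odd V v hv hv0 hvI
    set c : ℚ := PowerSeries.coeff k w with hcdef
    have hc0 : c ≠ 0 := by
      rintro h
      rw [h, padicNorm.zero] at hk
      exact zero_ne_one hk
    let V' : Submodule ℚ ℚ⟦X⟧ := V ⊓ LinearMap.ker (PowerSeries.coeff (R := ℚ) k)
    have hV'V : V' < V := by
      refine lt_of_le_of_ne inf_le_left fun h => ?_
      have : w ∈ V' := by rw [h]; exact hw
      have := this.2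
      rw [SetLike.mem_coe, LinearMap.mem_ker] at this
      exact hc0 this
    haveI := hV
    haveI hV'f : FiniteDimensional ℚ V' := Submodule.finiteDimensional_inf_left _ _
    have hfin : Module.finrank ℚ V' ≤ d := by
      have := Submodule.finrank_lt_finrank_of_lt hV'V
      omega
    -- residues
    have hres : ∀ x : ℚ⟦X⟧, ∃ r : ℕ, r < 2 ^ m ∧ (x ∈ T → ∃ y : ℚ, padicNorm 2 y ≤ 1 ∧
        PowerSeries.coeff k x - r = 2 ^ m * y) := by
      intro x
      by_cases hx : x ∈ T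
      · obtain ⟨r, hr, hy⟩ := exists_res (PowerSeries.coeff k x) ((hT x hx).2 k) m
        exact ⟨r, hr, fun _ => hy⟩
      · exact ⟨0, by positivity, fun h => absurd h hx⟩
    choose rr hrr hrr2 using hres
    obtain ⟨r0, -, hr0⟩ := Finset.exists_lt_card_fiber_of_mul_lt_card_of_maps_to
      (s := T) (t := Finset.range (2 ^ m)) (f := rr) (n := 2 ^ (m * d))
      (fun x _ => Finset.mem_range.2 (hrr x)) (by
        rw [Finset.card_range, ← pow_add]
        refine lt_of_eq_of_lt ?_ hc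
        congr 1
        ring)
    set T1 : Finset ℚ⟦X⟧ := T.filter fun x => rr x = r0 with hT1
    let φ : ℚ⟦X⟧ → ℚ⟦X⟧ := fun x => x - PowerSeries.C (PowerSeries.coeff k x / c) * w
    have hdiv : ∀ a : ℚ, padicNorm 2 a ≤ 1 → padicNorm 2 (a / c) ≤ 1 := by
      intro a ha
      rw [padicNorm.div, hk, div_one]
      exact ha
    have hφV : ∀ x ∈ T, φ x ∈ V' ∧ I2 (φ x) := by
      intro x hx
      obtain ⟨h1, h2⟩ := hT x hx
      refine ⟨⟨?_, ?_⟩, ?_⟩
      · change x - PowerSeries.C (PowerSeries.coeff k x / c) * w ∈ V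
        rw [← PowerSeries.smul_eq_C_mul]
        exact V.sub_mem h1 (V.smul_mem _ hw)
      · rw [SetLike.mem_coe, LinearMap.mem_ker]
        change PowerSeries.coeff k (x - PowerSeries.C (PowerSeries.coeff k x / c) * w) = 0
        rw [map_sub, PowerSeries.coeff_C_mul, ← hcdef, div_mul_cancel₀ _ hc0, sub_self]
      · exact h2.sub (I2.C_mul (hdiv _ (h2 k)) hwI)
    have hdiff : ∀ x ∈ T1, ∀ y ∈ T1, ∃ u : ℚ, padicNorm 2 u ≤ 1 ∧
        PowerSeries.coeff k x - PowerSeries.coeff k y = 2 ^ m * u := by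
      intro x hx y hy
      rw [hT1, Finset.mem_filter] at hx hy
      obtain ⟨a, ha, ha'⟩ := hrr2 x hx.1
      obtain ⟨b, hb, hb'⟩ := hrr2 y hy.1
      refine ⟨a - b, padicNorm.sub.trans (max_le ha hb), ?_⟩
      rw [hx.2] at ha'
      rw [hy.2] at hb'
      linear_combination ha' - hb'
    have hxy : ∀ x y : ℚ⟦X⟧, ∀ u : ℚ, PowerSeries.coeff k x - PowerSeries.coeff k y = 2 ^ m * u →
        x - y = (φ x - φ y) + PowerSeries.C ((2 : ℚ) ^ m) * (PowerSeries.C (u / c) * w) := by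
      intro x y u hu
      have e1 : PowerSeries.C (PowerSeries.coeff k x / c) - PowerSeries.C (PowerSeries.coeff k y / c)
          = (PowerSeries.C ((2 : ℚ) ^ m) * PowerSeries.C (u / c) : ℚ⟦X⟧) := by
        rw [← map_sub, ← map_mul]
        congr 1
        rw [← sub_div, hu, mul_div_assoc]
      change x - y = ((x - PowerSeries.C (PowerSeries.coeff k x / c) * w) -
        (y - PowerSeries.C (PowerSeries.coeff k y / c) * w)) + _
      linear_combination w * e1
    by_cases hinj : Set.InjOn φ (T1 : Set ℚ⟦X⟧)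
    · obtain ⟨x', hx', y', hy', hne, z, hz, hzz⟩ := ih V' hV'f hfin (T1.image φ) (by
        intro x' hx'
        obtain ⟨x, hx, rfl⟩ := Finset.mem_image.1 hx'
        rw [hT1, Finset.mem_filter] at hx
        exact hφV x hx.1) (by
        rw [Finset.card_image_of_injOn hinj]
        exact hr0)
      obtain ⟨x, hx, rfl⟩ := Finset.mem_image.1 hx'
      obtain ⟨y, hy, rfl⟩ := Finset.mem_image.1 hy'
      obtain ⟨u, hu, hu'⟩ := hdiff x hx y hy
      refine ⟨x, (Finset.mem_filter.1 hx).1, y, (Finset.mem_filter.1 hy).1,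
        fun h => hne (by rw [h]), z + PowerSeries.C (u / c) * w,
        hz.add (I2.C_mul (hdiv _ hu) hwI), ?_⟩
      rw [hxy x y u hu', hzz]
      ring
    · rw [Set.InjOn] at hinj
      push Not at hinj
      obtain ⟨x, hx, y, hy, hφ, hne⟩ := hinj
      rw [Finset.mem_coe] at hx hy
      obtain ⟨u, hu, hu'⟩ := hdiff x hx y hy
      refine ⟨x, (Finset.mem_filter.1 hx).1, y, (Finset.mem_filter.1 hy).1, hne,
        PowerSeries.C (u / c) * w, I2.C_mul (hdiv _ hu) hwI, ?_⟩
      rw [hxy x y u hu', hφ]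
      ring

end Pool.Agent.H68.OP
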