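import Pool.Agent.H85.OT.CDef
import Pool.Agent.H85.OT.ADef
import Pool.Agent.H68.OP.Pga

/-!
# Definitions for blocks C-E of the project OP (ordinary primes have positive lower density)

* `WW = U(q²)`, `ss = (U - V)/8`, `Ix κ L n` the index set, `Ph f κ L n (i,j,l) =
  W^(n + 6κL - i - 3j - κl) s^i (D W)^j F1^l`, `PhS` integer combinations;
* `O1 f p` : `p ∤ a_(p m)` for some `m` with `p m` odd;
* `Z1 f Y = ∏ p^⌊log_p Y⌋` over the odd primes `p ≤ Y` with `O1 f p` or `p² ≤ Y`.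
-/

open PowerSeries

namespace Pool.Agent.H68.OP

open Pool.Agent.H85.OT

/-- `U(q²)` -/
noncomputable def WW : ℚ⟦X⟧ := dbl ℚ (U ℚ)

/-- `(U - V)/8` -/
noncomputable def ss : ℚ⟦X⟧ := PowerSeries.C (1 / 8 : ℚ) * (U ℚ - V ℚ)

/-- the index set -/
abbrev Ix (κ L n : ℕ) : Type := Fin (n + 1) × Fin (κ * L + 1) × Fin (L + 1)

/-- `W^(n + 6κL - i - 3j - κl) s^i (D W)^j F1^l` -/
noncomputable def Ph (f : ℤ⟦X⟧) (κ L n : ℕ) (x : Ix κ L n) : ℚ⟦X⟧ :=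
  WW ^ (n + 3 * (2 * κ * L) - (x.1 : ℕ) - 3 * (x.2.1 : ℕ) - κ * (x.2.2 : ℕ)) * ss ^ (x.1 : ℕ) *
    (Dq ℚ WW) ^ (x.2.1 : ℕ) * F1 f ^ (x.2.2 : ℕ)

/-- integer combinations -/
noncomputable def PhS (f : ℤ⟦X⟧) (κ L n : ℕ) (t : Ix κ L n → ℤ) : ℚ⟦X⟧ :=
  ∑ x, PowerSeries.C (t x : ℚ) * Ph f κ L n x

/-- `p ∤ a_(p m)` for some `m` with `p m` odd -/
def O1 (f : ℤ⟦X⟧) (p : ℕ) : Prop := ∃ m : ℕ, ¬ 2 ∣ p * m ∧ ¬ ((p : ℤ) ∣ PowerSeries.coeff (p * m) f)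

open Classical in
/-- `∏ p^⌊log_p Y⌋` over the odd primes `p ≤ Y` with `O1 f p` or `p² ≤ Y` -/
noncomputable def Z1 (f : ℤ⟦X⟧) (Y : ℕ) : ℕ :=
  ∏ p ∈ (Finset.range (Y + 1)).filter (fun p => p.Prime ∧ p ≠ 2 ∧ (O1 f p ∨ p ^ 2 ≤ Y)),
    p ^ Nat.log p Y

end Pool.Agent.H68.OP
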