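import Pool.Agent.H68.OP.Defs
import Pool.Agent.H85.OT.Acheb

/-!
# Row OPDe (project OP, block E): from `log Z1(R'n + C') ≥ c n` to positive lower density

* `log_Z1`: `log Z1 = ∑ ⌊log_p Y⌋ log p ≤ (number of primes) * log Y` (`p^(Nat.log p Y) ≤ Y`, `Nat.pow_log_le_self`,
  `Y ≥ 1`); the primes `p ≤ Y` with `O1 f p` are `cnt (O1 f) Y` many, those with `p² ≤ Y` at most `√Y` many
  (`p ≤ Nat.sqrt Y`).  For `Y ≥ 1`: `log Z1 ≤ (cnt (O1 f) Y + √Y) log Y`.
* `endgame`: for `x` large let `n = (x - C')/R'` (natural division), `Y = R' n + C' ≤ x`, `n ≥ x/R' - C'/R' - 1 ≥ x/(2R')`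
  (as reals, `x` large).  `cnt` is monotone.  So `c x/(2R') ≤ (cnt (O1 f) x + √x) log x`, and `√x log x ≤ c x/(4R')` for
  `x` large; so `cnt (O1 f) x log x ≥ c x/(4 R')`.  `pi_up` (`OT/Acheb.lean`): `π(x) log x ≤ C x`, so
  `cnt (O1 f) x ≥ (c/(4 R' C)) π(x)` (`log x > 0`).
-/

open PowerSeries

namespace Pool.Agent.H68.OP

open Pool.Agent.H85.OT

theorem log_Z1 (f : ℤ⟦X⟧) (Y : ℕ) (hY : 1 ≤ Y) :
    Real.log (Z1 f Y) ≤ ((cnt (O1 f) Y : ℝ) + Real.sqrt Y) * Real.log Y := by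
  classical
  have hY0 : (1 : ℝ) ≤ (Y : ℝ) := by exact_mod_cast hY
  have hlog : 0 ≤ Real.log (Y : ℝ) := Real.log_nonneg hY0
  unfold Z1
  set S := (Finset.range (Y + 1)).filter (fun p => p.Prime ∧ p ≠ 2 ∧ (O1 f p ∨ p ^ 2 ≤ Y)) with hS
  have hcast : ((∏ p ∈ S, p ^ Nat.log p Y : ℕ) : ℝ) = ∏ p ∈ S, ((p ^ Nat.log p Y : ℕ) : ℝ) := by
    push_cast
    rfl
  rw [hcast, Real.log_prod]
  swap
  · intro p hp
    have hp1 : p.Prime := (Finset.mem_filter.1 hp).2.1
    have : p ^ Nat.log p Y ≠ 0 := pow_ne_zero _ hp1.ne_zero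
    exact_mod_cast this
  have h1 : ∑ p ∈ S, Real.log ((p ^ Nat.log p Y : ℕ) : ℝ) ≤ ∑ _p ∈ S, Real.log (Y : ℝ) := by
    apply Finset.sum_le_sum
    intro p hp
    have hp1 : p.Prime := (Finset.mem_filter.1 hp).2.1
    apply Real.log_le_log
    · exact_mod_cast pow_pos hp1.pos _
    · exact_mod_cast Nat.pow_log_le_self p (by omega)
  refine h1.trans ?_
  rw [Finset.sum_const, nsmul_eq_mul]
  apply mul_le_mul_of_nonneg_right _ hlog
  have hsub : S ⊆ ((Finset.range (Y + 1)).filter (fun p => p.Prime ∧ O1 f p)) ∪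
      Finset.Icc 1 (Nat.sqrt Y) := by
    intro p hp
    obtain ⟨hp0, hp1, _, hp3⟩ := Finset.mem_filter.1 hp
    rw [Finset.mem_union]
    rcases hp3 with h | h
    · exact Or.inl (Finset.mem_filter.2 ⟨hp0, hp1, h⟩)
    · exact Or.inr (Finset.mem_Icc.2 ⟨hp1.one_lt.le, Nat.le_sqrt'.2 h⟩)
  have hcard : S.card ≤ cnt (O1 f) Y + Nat.sqrt Y := by
    refine (Finset.card_le_card hsub).trans ((Finset.card_union_le _ _).trans ?_)
    apply Nat.add_le_add
    · unfold cnt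
      apply le_of_eq
      congr
    · simp
  have h2 : (S.card : ℝ) ≤ (cnt (O1 f) Y : ℝ) + (Nat.sqrt Y : ℝ) := by exact_mod_cast hcard
  have h3 : (Nat.sqrt Y : ℝ) ≤ Real.sqrt Y := Real.nat_sqrt_le_real_sqrt
  linarith

theorem cnt_mono' (P : ℕ → Prop) {x y : ℕ} (h : x ≤ y) : cnt P x ≤ cnt P y := by
  classical
  unfold cnt
  apply Finset.card_le_card
  intro p hp
  rw [Finset.mem_filter, Finset.mem_range] at hp ⊢
  exact ⟨by omega, hp.2⟩

theorem endgame (f : ℤ⟦X⟧) (c : ℝ) (hc : 0 < c) (R' C' n0 : ℕ) (hR : 1 ≤ R')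
    (h : ∀ n ≥ n0, c * n ≤ Real.log (Z1 f (R' * n + C'))) : PosLower (O1 f) := by
  obtain ⟨C, hC, hup⟩ := pi_up
  have hRr : (1 : ℝ) ≤ (R' : ℝ) := by exact_mod_cast hR
  have hR0 : (0 : ℝ) < (R' : ℝ) := by linarith
  have he : (0 : ℝ) < c / (4 * R') := by positivity
  have hev := (isLittleO_log_rpow_atTop (r := 1 / 2) (by norm_num)).bound he
  have hev2 := tendsto_natCast_atTop_atTop (R := ℝ) |>.eventually hev
  obtain ⟨x1, hx1⟩ := Filter.eventually_atTop.1 hev2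
  refine ⟨c / (4 * R' * C), by positivity, x1 + 2 * (C' + R') + R' * (n0 + 1) + C' + 2, fun x hx => ?_⟩
  have hx2 : 2 ≤ x := by omega
  have hxC : C' ≤ x := by omega
  have hxr2 : (2 : ℝ) ≤ (x : ℝ) := by exact_mod_cast hx2
  have hx0 : (0 : ℝ) < (x : ℝ) := by linarith
  have hlx : 0 < Real.log (x : ℝ) := Real.log_pos (by linarith)
  set n := (x - C') / R' with hn
  have hn1 : R' * n ≤ x - C' := Nat.mul_div_le _ _
  have hn2 : x - C' < R' * (n + 1) := by
    have := Nat.lt_mul_div_succ (x - C') (show 0 < R' by omega)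
    rw [hn]
    exact this
  have hY : R' * n + C' ≤ x := by omega
  have hn3 : n0 + 1 ≤ n := by
    by_contra hcon
    have h5 : n + 1 ≤ n0 + 1 := by omega
    have h6 : R' * (n + 1) ≤ R' * (n0 + 1) := Nat.mul_le_mul_left _ h5
    omega
  have hY1 : 1 ≤ R' * n + C' := by
    have : 1 * 1 ≤ R' * n := Nat.mul_le_mul hR (by omega)
    omega
  have h1 := h n (by omega)
  have h2 := log_Z1 f (R' * n + C') hY1
  have hYr1 : (1 : ℝ) ≤ ((R' * n + C' : ℕ) : ℝ) := by exact_mod_cast hY1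
  have hYr : ((R' * n + C' : ℕ) : ℝ) ≤ (x : ℝ) := by exact_mod_cast hY
  have h3 : ((cnt (O1 f) (R' * n + C') : ℝ) + Real.sqrt ((R' * n + C' : ℕ) : ℝ)) *
      Real.log ((R' * n + C' : ℕ) : ℝ) ≤ ((cnt (O1 f) x : ℝ) + Real.sqrt x) * Real.log x := by
    apply mul_le_mul
    · apply add_le_add
      · exact_mod_cast cnt_mono' (O1 f) hY
      · exact Real.sqrt_le_sqrt hYr
    · exact Real.log_le_log (by linarith) hYr
    · exact Real.log_nonneg hYr1
    · positivity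
  have h4 : c * n ≤ ((cnt (O1 f) x : ℝ) + Real.sqrt x) * Real.log x := h1.trans (h2.trans h3)
  have h5 : (x : ℝ) / (2 * R') ≤ (n : ℝ) := by
    rw [div_le_iff₀ (by positivity)]
    have h6 : x + 2 * (C' + R') ≤ 2 * x := by omega
    have h7 : x < R' * (n + 1) + C' := by omega
    have h6r : (x : ℝ) + 2 * (C' + R') ≤ 2 * x := by exact_mod_cast h6
    have h7r : (x : ℝ) < R' * (n + 1) + C' := by exact_mod_cast h7
    nlinarith
  have h6 : c * x / (2 * R') ≤ ((cnt (O1 f) x : ℝ) + Real.sqrt x) * Real.log x := by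
    calc c * x / (2 * R') = c * (x / (2 * R')) := by ring
      _ ≤ c * n := mul_le_mul_of_nonneg_left h5 hc.le
      _ ≤ _ := h4
  have h7 : Real.sqrt x * Real.log x ≤ c / (4 * R') * x := by
    have h8 := hx1 x (by omega)
    rw [Real.norm_eq_abs, abs_of_pos hlx, Real.norm_eq_abs, ← Real.sqrt_eq_rpow,
      abs_of_nonneg (Real.sqrt_nonneg _)] at h8
    calc Real.sqrt x * Real.log x ≤ Real.sqrt x * (c / (4 * R') * Real.sqrt x) :=
        mul_le_mul_of_nonneg_left h8 (Real.sqrt_nonneg _)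
      _ = c / (4 * R') * (Real.sqrt x * Real.sqrt x) := by ring
      _ = c / (4 * R') * x := by rw [Real.mul_self_sqrt hx0.le]
  have h8 : c / (4 * R') * x ≤ (cnt (O1 f) x : ℝ) * Real.log x := by
    have h9 : c * x / (2 * R') = 2 * (c / (4 * R') * x) := by
      field_simp
      ring
    rw [h9, add_mul] at h6
    linarith
  have h9 := hup x hx2
  have h10 : c / (4 * R' * C) * (Nat.primeCounting x : ℝ) * Real.log x ≤
      (cnt (O1 f) x : ℝ) * Real.log x := by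
    calc c / (4 * R' * C) * (Nat.primeCounting x : ℝ) * Real.log x =
        c / (4 * R' * C) * ((Nat.primeCounting x : ℝ) * Real.log x) := by ring
      _ ≤ c / (4 * R' * C) * (C * x) := mul_le_mul_of_nonneg_left h9 (by positivity)
      _ = c / (4 * R') * x := by
          field_simp
      _ ≤ _ := h8
  exact le_of_mul_le_mul_right h10 hlx

end Pool.Agent.H68.OP
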