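import Pool.Agent.H68.OP.Co

/-!
# Row OPDd (project OP, block D): choice of the parameters

Zero estimate `ZeroE f κ R1`: for every `L` there is `CL` such that for all `n`, `t ≠ 0` some coefficient of index
`≤ R1 (L+1)² n + CL` of `PhS t` is nonzero.  We may assume `R1 ≥ 1`, `C ≥ 1`.
Take `a` large, `L = 24 C (1+a)`, `m = a n`, `r' = R1 (L+1)²`, `ρ = 1 - 1/(2 r')` (so `0 < ρ < 1`), `Y = r' n + CL`,
`B` the maximum of the bounds for `F1 f` and `Dq WW` at this `ρ`.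
* `h4` of `core`: `2κL+1 ≤ 3κL`; `4 C · 3κL (n(1+a) + 3κL) ≤ n κ L²` iff `12 C (n(1+a) + 3κL) ≤ n L = 24 C (1+a) n`
  iff `36 C κ L ≤ 12 C (1+a) n`: true for `n ≥ 3 κ L`.
* Logarithm of `core` (`Real.log_le_log`, `Real.log_mul`, `Real.log_pow`):
  `a n log 2 ≤ L log Z1 + log N + (a n/4 + 1) log 2 + (n + 6κL) log (MR ρ) + (κ+1) L log B + Y log ρ⁻¹`.
  `MR ρ = 16 r'²`, `log (MR ρ) = 4 log 2 + 2 log r'`; `log ρ⁻¹ ≤ 1/r'` (as `ρ⁻¹ ≤ 1 + 1/r'`: `(1 - 1/(2r'))(1 + 1/r') ≥ 1`),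
  so `Y log ρ⁻¹ ≤ n + CL`; `log N ≤ log (n+1) + log ((κL+1)(L+1))`.
  So `n ((3/4) a log 2 - 4 log 2 - 2 log r' - 1) ≤ L log Z1 + log (n+1) + K0` with `K0` independent of `n`.
* Choice of `a`: `(3/4) a log 2 - 4 log 2 - 2 log (R1 (24 C (1+a) + 1)²) - 1 ≥ 1` for `a` large
  (`log (a+1) = o(a)`; e.g. `Real.isLittleO_log_id_atTop`, or `Apar_log`-like lemma in `OT/Apar.lean`).
* For `n ≥ n0`: `log (n+1) + K0 ≤ n/2`, so `log Z1 ≥ n/(2L)`.
Result with `c = 1/(2L)`, `R' = r'`, `C' = CL`.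
-/

open PowerSeries

namespace Pool.Agent.H68.OP

open Pool.Agent.H85.OT

/-- the zero estimate -/
def ZeroE (f : ℤ⟦X⟧) (κ R1 : ℕ) : Prop :=
  ∀ L : ℕ, ∃ CL : ℕ, ∀ (n : ℕ) (t : Ix κ L n → ℤ), t ≠ 0 →
    ∃ l ≤ R1 * (L + 1) ^ 2 * n + CL, PowerSeries.coeff l (PhS f κ L n t) ≠ 0

/-- `log x ≤ e x - 1 - log e` -/
theorem Fa_log {x e : ℝ} (hx : 0 < x) (he : 0 < e) : Real.log x ≤ e * x - 1 - Real.log e := by
  have h1 := Real.log_le_sub_one_of_pos (mul_pos he hx)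
  rw [Real.log_mul he.ne' hx.ne'] at h1
  linarith

/-- choice of `a` -/
theorem exists_a (R1 C : ℕ) : ∃ a : ℕ, 1 ≤ a ∧
    2 + 4 * Real.log 2 + 2 * Real.log (R1 * (24 * C * (1 + a) + 1) ^ 2 : ℕ) ≤
      3 / 4 * a * Real.log 2 := by
  have hl2 : 0 < Real.log 2 := Real.log_pos (by norm_num)
  obtain ⟨e, he⟩ : ∃ e : ℝ, e = 3 / 64 * Real.log 2 := ⟨_, rfl⟩
  have he0 : 0 < e := by rw [he]; positivity
  obtain ⟨M0, hM0⟩ : ∃ M0 : ℝ, M0 = ((R1 : ℝ) + 1) * (24 * (C : ℝ) + 1) ^ 2 := ⟨_, rfl⟩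
  have hR0 : (0 : ℝ) ≤ R1 := Nat.cast_nonneg _
  have hC0 : (0 : ℝ) ≤ C := Nat.cast_nonneg _
  have hM1 : 1 ≤ M0 := by
    rw [hM0]
    have h1 : (1 : ℝ) ≤ (R1 : ℝ) + 1 := by linarith
    have h2 : (1 : ℝ) ≤ (24 * (C : ℝ) + 1) ^ 2 := one_le_pow₀ (by linarith)
    nlinarith
  obtain ⟨n, hn⟩ := exists_nat_ge
    ((2 + 4 * Real.log 2 + 2 * Real.log M0 - 4 - 4 * Real.log e) / (3 / 8 * Real.log 2))
  obtain ⟨a, haa⟩ : ∃ a : ℕ, a = max 1 n := ⟨_, rfl⟩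
  refine ⟨a, by rw [haa]; exact le_max_left _ _, ?_⟩
  have ha : (2 + 4 * Real.log 2 + 2 * Real.log M0 - 4 - 4 * Real.log e) / (3 / 8 * Real.log 2) ≤
      (a : ℝ) := hn.trans (by rw [haa]; exact_mod_cast le_max_right 1 n)
  have ha1 : (1 : ℝ) ≤ a := by rw [haa]; exact_mod_cast le_max_left 1 n
  rw [div_le_iff₀ (by positivity)] at ha
  have h1 : Real.log ((R1 * (24 * C * (1 + a) + 1) ^ 2 : ℕ) : ℝ) ≤
      Real.log M0 + 2 * Real.log (1 + (a : ℝ)) := by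
    have h2 : Real.log M0 + 2 * Real.log (1 + (a : ℝ)) = Real.log (M0 * (1 + (a : ℝ)) ^ 2) := by
      rw [Real.log_mul (by linarith) (by positivity), Real.log_pow]
      push_cast
      ring
    rw [h2]
    have h5 : (1 : ℝ) ≤ (1 + (a : ℝ)) ^ 2 := one_le_pow₀ (by linarith)
    by_cases hx : ((R1 * (24 * C * (1 + a) + 1) ^ 2 : ℕ) : ℝ) = 0
    · rw [hx, Real.log_zero]
      apply Real.log_nonneg
      nlinarith
    · apply Real.log_le_log (lt_of_le_of_ne (Nat.cast_nonneg _) (Ne.symm hx))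
      push_cast
      have h3 : 24 * (C : ℝ) * (1 + (a : ℝ)) + 1 ≤ (24 * (C : ℝ) + 1) * (1 + (a : ℝ)) := by
        nlinarith
      have h4 : (24 * (C : ℝ) * (1 + (a : ℝ)) + 1) ^ 2 ≤
          ((24 * (C : ℝ) + 1) * (1 + (a : ℝ))) ^ 2 :=
        pow_le_pow_left₀ (by positivity) h3 2
      rw [hM0]
      calc (R1 : ℝ) * (24 * (C : ℝ) * (1 + (a : ℝ)) + 1) ^ 2
          ≤ ((R1 : ℝ) + 1) * ((24 * (C : ℝ) + 1) * (1 + (a : ℝ))) ^ 2 := by
            apply mul_le_mul (by linarith) h4 (by positivity) (by positivity)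
        _ = ((R1 : ℝ) + 1) * (24 * (C : ℝ) + 1) ^ 2 * (1 + (a : ℝ)) ^ 2 := by ring
  have h3 := Fa_log (x := 1 + (a : ℝ)) (e := e) (by positivity) he0
  have h6 : e * (1 + (a : ℝ)) ≤ e * (2 * (a : ℝ)) :=
    mul_le_mul_of_nonneg_left (by linarith) he0.le
  have h7 : e * (2 * (a : ℝ)) = 3 / 32 * (a : ℝ) * Real.log 2 := by rw [he]; ring
  nlinarith

/-- the logarithm of the core inequality -/
theorem Fa_core_log {Z N B M r : ℝ} (hZ : 0 < Z) (hN : 0 < N) (hB : 0 < B) (hM : 0 < M)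
    (hr : 0 < r) {m L k e1 e2 Y : ℕ}
    (h : (2 : ℝ) ^ m ≤ Z ^ L * (N * 2 ^ k * (M ^ e1 * B ^ e2 * r ^ Y))) :
    (m : ℝ) * Real.log 2 ≤ L * Real.log Z + Real.log N + k * Real.log 2 + e1 * Real.log M +
      e2 * Real.log B + Y * Real.log r := by
  have h1 := Real.log_le_log (by positivity) h
  rw [Real.log_pow, Real.log_mul (by positivity) (by positivity),
    Real.log_mul (by positivity) (by positivity), Real.log_mul (by positivity) (by positivity),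
    Real.log_mul (by positivity) (by positivity), Real.log_mul (by positivity) (by positivity),
    Real.log_pow, Real.log_pow, Real.log_pow, Real.log_pow, Real.log_pow] at h1
  linarith

theorem low_Z1 (f : ℤ⟦X⟧) (hodd : ∀ n, 2 ∣ n → PowerSeries.coeff n f = 0) (κ : ℕ) (hκ : 1 ≤ κ)
    (C : ℕ) (hC : 1 ≤ C) (h2 : TwoAd f κ C) (R1 : ℕ) (hR : 1 ≤ R1) (hze : ZeroE f κ R1)
    (hbd : ∀ ρ : ℝ, 0 < ρ → ρ < 1 → ∃ B : ℝ, Bd ρ B (F1 f)) :
    ∃ c : ℝ, 0 < c ∧ ∃ R' C' n0 : ℕ, 1 ≤ R' ∧ ∀ n ≥ n0,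
      c * n ≤ Real.log (Z1 f (R' * n + C')) := by
  obtain ⟨a, ha1, ha⟩ := exists_a R1 C
  obtain ⟨L, hL⟩ : ∃ L : ℕ, L = 24 * C * (1 + a) := ⟨_, rfl⟩
  rw [← hL] at ha
  obtain ⟨r', hr'⟩ : ∃ r' : ℕ, r' = R1 * (L + 1) ^ 2 := ⟨_, rfl⟩
  rw [← hr'] at ha
  have hL1 : 1 ≤ L := by
    rw [hL]
    have : 0 < 24 * C * (1 + a) := by positivity
    omega
  have hr1 : 1 ≤ r' := by
    rw [hr']
    have : 0 < R1 * (L + 1) ^ 2 := by positivity
    omega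
  have hr1' : (1 : ℝ) ≤ r' := by exact_mod_cast hr1
  have hL1' : (1 : ℝ) ≤ L := by exact_mod_cast hL1
  have hl2 : 0 < Real.log 2 := Real.log_pos (by norm_num)
  obtain ⟨CL, hCL⟩ := hze L
  obtain ⟨ρ, hρ⟩ : ∃ ρ : ℝ, ρ = 1 - 1 / (2 * r') := ⟨_, rfl⟩
  have hx1 : (0 : ℝ) < 1 / (2 * r') := by positivity
  have hx2 : (1 : ℝ) / (2 * r') ≤ 1 / 2 := by
    apply one_div_le_one_div_of_le (by norm_num)
    linarith
  have hρ0 : 0 < ρ := by rw [hρ]; linarith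
  have hρ1 : ρ < 1 := by rw [hρ]; linarith
  obtain ⟨B1, hB1⟩ := hbd ρ hρ0 hρ1
  obtain ⟨B2, hB2, hB2'⟩ := Bd_DW hρ0 hρ1
  obtain ⟨B, hBB⟩ : ∃ B : ℝ, B = max B1 B2 := ⟨_, rfl⟩
  have hB : 1 ≤ B := by rw [hBB]; exact hB2.trans (le_max_right _ _)
  have hBd1 : Bd ρ B (F1 f) := fun N => (hB1 N).trans (by rw [hBB]; exact le_max_left _ _)
  have hBd2 : Bd ρ B (Dq ℚ WW) := fun N => (hB2' N).trans (by rw [hBB]; exact le_max_right _ _)
  have hMR : MR ρ = 16 * (r' : ℝ) ^ 2 := by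
    rw [MR, hρ]
    field_simp
    ring
  have hMR0 : 0 < MR ρ := by rw [hMR]; positivity
  have hlMR : Real.log (MR ρ) = 4 * Real.log 2 + 2 * Real.log r' := by
    rw [hMR, Real.log_mul (by norm_num) (by positivity), Real.log_pow]
    have h16 : (16 : ℝ) = 2 ^ 4 := by norm_num
    rw [h16, Real.log_pow]
    push_cast
    ring
  have hinv : Real.log ρ⁻¹ ≤ 1 / r' := by
    have h3 : ρ⁻¹ ≤ 1 + 1 / r' := by
      rw [inv_le_iff_one_le_mul₀ hρ0, hρ]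
      have h4 : (0 : ℝ) < r' := by linarith
      have h5 : (1 + 1 / (r' : ℝ)) * (1 - 1 / (2 * r')) = 1 + (1 / (2 * r')) * (1 - 1 / r') := by
        field_simp
        ring
      rw [h5]
      have h6 : (1 : ℝ) / r' ≤ 1 := by
        rw [div_le_one h4]
        exact hr1'
      nlinarith
    have h4 : (0 : ℝ) < 1 + 1 / r' := by positivity
    calc Real.log ρ⁻¹ ≤ Real.log (1 + 1 / r') := Real.log_le_log (by positivity) h3
      _ ≤ (1 + 1 / r') - 1 := Real.log_le_sub_one_of_pos h4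
      _ = 1 / r' := by ring
  obtain ⟨K0, hK0⟩ : ∃ K0 : ℝ, K0 = Real.log (((κ * L + 1) * (L + 1) : ℕ) : ℝ) + Real.log 2 +
      (6 * κ * L : ℕ) * (4 * Real.log 2 + 2 * Real.log r') + ((κ + 1) * L : ℕ) * Real.log B + CL :=
    ⟨_, rfl⟩
  obtain ⟨n1, hn1⟩ := exists_nat_ge (4 * (K0 + Real.log 4))
  refine ⟨1 / (2 * L), by positivity, r', CL, max (3 * κ * L) n1, hr1, ?_⟩
  intro n hn
  have hn2 : 3 * κ * L ≤ n := (le_max_left _ _).trans hn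
  have hn3 : 4 * (K0 + Real.log 4) ≤ (n : ℝ) :=
    hn1.trans (by exact_mod_cast (le_max_right _ _).trans hn)
  have hκL : 1 ≤ κ * L := Nat.one_le_iff_ne_zero.2 (by positivity)
  have h4 : 4 * (C * (2 * κ * L + 1) * (n + a * n + 2 * κ * L + 1)) ≤
      (n + 1) * (κ * L + 1) * (L + 1) := by
    have e1 : 2 * κ * L + 1 ≤ 3 * κ * L := by nlinarith
    have e2 : n + a * n + 2 * κ * L + 1 ≤ 2 * n * (1 + a) := by nlinarith
    calc 4 * (C * (2 * κ * L + 1) * (n + a * n + 2 * κ * L + 1))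
        ≤ 4 * (C * (3 * κ * L) * (2 * n * (1 + a))) := by gcongr
      _ = n * (κ * L) * (24 * C * (1 + a)) := by ring
      _ = n * (κ * L) * L := by rw [← hL]
      _ ≤ (n + 1) * (κ * L + 1) * (L + 1) := by gcongr <;> omega
  have hc := core f hodd κ C h2 L n (a * n) (r' * n + CL) h4
    (fun t ht => by
      obtain ⟨l, hl, hl2⟩ := hCL n t ht
      exact ⟨l, by rw [hr']; exact hl, hl2⟩) hρ0 hρ1 hB hBd1 hBd2
  have hZ : (0 : ℝ) < (Z1 f (r' * n + CL) : ℝ) := by exact_mod_cast Z1_pos f _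
  have hlog := Fa_core_log hZ (by positivity) (by linarith) hMR0 (by positivity) hc
  -- the terms
  have t1 : Real.log (((n + 1) * (κ * L + 1) * (L + 1) : ℕ) : ℝ) =
      Real.log ((n : ℝ) + 1) + Real.log (((κ * L + 1) * (L + 1) : ℕ) : ℝ) := by
    rw [← Real.log_mul (by positivity) (by positivity)]
    congr 1
    push_cast
    ring
  have t2 : ((a * n / 4 + 1 : ℕ) : ℝ) ≤ (a : ℝ) * n / 4 + 1 := by
    have h5 : ((a * n / 4 : ℕ) : ℝ) ≤ ((a * n : ℕ) : ℝ) / ((4 : ℕ) : ℝ) := Nat.cast_div_le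
    push_cast at h5 ⊢
    linarith
  have t2' : ((a * n / 4 + 1 : ℕ) : ℝ) * Real.log 2 ≤ ((a : ℝ) * n / 4 + 1) * Real.log 2 :=
    mul_le_mul_of_nonneg_right t2 hl2.le
  have t3 : ((r' * n + CL : ℕ) : ℝ) * Real.log ρ⁻¹ ≤ n + CL := by
    have h5 : ((r' * n + CL : ℕ) : ℝ) * Real.log ρ⁻¹ ≤ ((r' * n + CL : ℕ) : ℝ) * (1 / r') :=
      mul_le_mul_of_nonneg_left hinv (Nat.cast_nonneg _)
    refine h5.trans ?_
    have h6 : (0 : ℝ) < r' := by linarith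
    have h7 : ((r' * n + CL : ℕ) : ℝ) * (1 / r') = n + CL * (1 / r') := by
      push_cast
      field_simp
    rw [h7]
    have h8 : (1 : ℝ) / r' ≤ 1 := by
      rw [div_le_one h6]
      exact hr1'
    have h9 : (0 : ℝ) ≤ CL := Nat.cast_nonneg _
    nlinarith
  have t4 := Fa_log (x := (n : ℝ) + 1) (e := 1 / 4) (by positivity) (by norm_num)
  have t5 : Real.log (1 / 4 : ℝ) = - Real.log 4 := by
    rw [one_div, Real.log_inv]
  rw [t5] at t4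
  rw [t1, hlMR] at hlog
  have t6 : ((n + 6 * κ * L : ℕ) : ℝ) * (4 * Real.log 2 + 2 * Real.log r') =
      n * (4 * Real.log 2 + 2 * Real.log r') +
        (6 * κ * L : ℕ) * (4 * Real.log 2 + 2 * Real.log r') := by
    push_cast
    ring
  rw [t6] at hlog
  have hn0 : (0 : ℝ) ≤ n := Nat.cast_nonneg _
  have t7 : (n : ℝ) * (2 + 4 * Real.log 2 + 2 * Real.log r') ≤ n * (3 / 4 * a * Real.log 2) :=
    mul_le_mul_of_nonneg_left ha hn0
  have t8 : ((a * n : ℕ) : ℝ) * Real.log 2 = a * n * Real.log 2 := by push_cast; ring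
  rw [t8] at hlog
  have key : (n : ℝ) / 2 ≤ L * Real.log (Z1 f (r' * n + CL) : ℝ) := by
    nlinarith
  have h0L : (0 : ℝ) < L := by linarith
  rw [div_mul_eq_mul_div, one_mul, div_le_iff₀ (by positivity)]
  nlinarith

end Pool.Agent.H68.OP
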