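import Pool.Agent.H68.OP.Fa
import Pool.Agent.H68.OP.En

/-!
# Blocks C-E of the project OP: conclusion
-/

open PowerSeries

namespace Pool.Agent.H68.OP

open Pool.Agent.H85.OT

/-- positive lower density of `O1 f` from the 2-adic input and the zero estimate -/
theorem posLower_O1 (f : ℤ⟦X⟧) (hodd : ∀ n, 2 ∣ n → PowerSeries.coeff n f = 0) (κ : ℕ)
    (hκ : 1 ≤ κ) (C : ℕ) (hC : 1 ≤ C) (h2 : TwoAd f κ C) (R1 : ℕ) (hR : 1 ≤ R1)
    (hze : ZeroE f κ R1)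
    (hbd : ∀ ρ : ℝ, 0 < ρ → ρ < 1 → ∃ B : ℝ, Bd ρ B (F1 f)) : PosLower (O1 f) := by
  obtain ⟨c, hc, R', C', n0, hR', h⟩ := low_Z1 f hodd κ hκ C hC h2 R1 hR hze hbd
  exact endgame f c hc R' C' n0 hR' h

end Pool.Agent.H68.OP
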