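import Pool.Agent.H68.OP.Fn
import Pool.Agent.H46.OP.Defs

/-!
# Project OP: glue between the definitions of `H46/OP/Defs.lean` and blocks C-E
-/

open PowerSeries

namespace Pool.Agent.H68.OP

open Pool.Agent.H85.OT

theorem WW_eq : WW = Pool.Agent.H46.OP.Wq := rfl
theorem ss_eq : ss = Pool.Agent.H46.OP.sq := rfl
theorem I2_iff (y : ℚ⟦X⟧) : I2 y ↔ Pool.Agent.H46.OP.Int2 y := Iff.rfl
theorem Ph_eq (f : ℤ⟦X⟧) (κ L n : ℕ) (x : Ix κ L n) :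
    Ph f κ L n x = Pool.Agent.H46.OP.Ph f κ L n x := rfl
theorem PhS_eq (f : ℤ⟦X⟧) (κ L n : ℕ) (t : Ix κ L n → ℤ) :
    PhS f κ L n t = Pool.Agent.H46.OP.PhS f κ L n t := rfl

theorem TwoAd.mono {f : ℤ⟦X⟧} {κ C C' : ℕ} (h : TwoAd f κ C) (hC : C ≤ C') : TwoAd f κ C' := by
  intro n H m
  obtain ⟨S, hS, h1⟩ := h n H m
  refine ⟨S, hS.trans ?_, h1⟩
  gcongr

/-- blocks C-E in the notation of `H46/OP/Defs.lean` -/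
theorem posLower_O1' (f : ℤ⟦X⟧) (hodd : ∀ n, 2 ∣ n → PowerSeries.coeff n f = 0) (κ : ℕ)
    (hκ : 1 ≤ κ) (h2 : ∃ C, TwoAd f κ C) (hze : Pool.Agent.H46.OP.ZeroEst f κ)
    (hbd : ∀ ρ : ℝ, 0 < ρ → ρ < 1 → ∃ B : ℝ, Bd ρ B (F1 f)) : PosLower (O1 f) := by
  obtain ⟨C, hC⟩ := h2
  obtain ⟨R1, hR1⟩ := hze
  refine posLower_O1 f hodd κ hκ (C + 1) (by omega) (hC.mono (by omega)) (R1 + 1) (by omega) ?_ hbd
  intro L
  obtain ⟨CL, hCL⟩ := hR1 L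
  refine ⟨CL, fun n t ht => ?_⟩
  obtain ⟨l, hl, h⟩ := hCL n t ht
  refine ⟨l, hl.trans ?_, h⟩
  gcongr
  omega

end Pool.Agent.H68.OP
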