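import Pool.Agent.H68.OP.Defs
import Pool.Agent.H85.OT.Cbd

/-!
# Row OPDa (project OP, block D): size of the coefficients of `Ph`

`Bd ρ B g`: all partial sums of `∑ |g_n| ρ^n` are `≤ B`; `MR ρ = 4/(1-ρ)²`; `Bd.mul`, `Bd.pow`, `Bd.add`, `Cbd_C`,
`Bd_U`, `Bd_V` in `OT/Cbd.lean`.
* `Bd_WW`: coefficient `2n` of `WW` is `U_n`, odd coefficients vanish (`PowerSeries.coeff_expand_mul`,
  `coeff_expand_of_not_dvd`), `ρ^(2n) ≤ ρ^n`: the partial sum up to `N` is at most the partial sum of `U` up to `N`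
  (see the end of `OT/Cbd.lean`, `Cbd_even`, for the same argument).
* `Bd_ss`: `C (1/8) * (U - V)`: `(1/8)(MR + MR) ≤ MR` (`Bd` is monotone in `B`).
* `Bd_DW`: for every `0 < ρ < 1` there is `B`: with `τ = √ρ`, `n ρ^n = n τ^n τ^n ≤ (1-τ)⁻¹ τ^n`
  (`n τ^n ≤ 1 + τ + .. + τ^(n-1) ≤ (1-τ)⁻¹`), so the sum is `≤ (1-τ)⁻¹ MR τ` (`Bd_WW` at `τ`, `coeff_Dq`).
* `Ph_bd`: the product; `MR ρ ≥ 1`, `B ≥ 1`; the exponents of `WW` and `ss` add up to at most `n + 6 κ L`, that of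
  `Dq WW` is `≤ κ L`, that of `F1 f` is `≤ L`; a coefficient of a series with `Bd ρ A` is `≤ A ρ^(-l)`.
* `PhS_bd`: `|t x| ≤ T` for all `x`, number of terms `(n+1)(κL+1)(L+1)`.
-/

open PowerSeries

namespace Pool.Agent.H68.OP

open Pool.Agent.H85.OT

theorem Sz_dbl {ρ B : ℝ} (hρ : 0 < ρ) (hρ1 : ρ < 1) {g : ℚ⟦X⟧} (hg : Bd ρ B g) :
    Bd ρ B (dbl ℚ g) := by
  intro N
  have h2 : ∀ m, |((PowerSeries.coeff m (dbl ℚ g) : ℚ) : ℝ)| =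
      if 2 ∣ m then |((PowerSeries.coeff (m / 2) g : ℚ) : ℝ)| else 0 := by
    intro m
    unfold dbl
    rw [PowerSeries.coeff_expand]
    split_ifs
    · rfl
    · simp
  simp only [h2]
  calc ∑ m ∈ Finset.range N, (if 2 ∣ m then |((PowerSeries.coeff (m / 2) g : ℚ) : ℝ)| else 0) * ρ ^ m
      ≤ ∑ m ∈ Finset.range (2 * N), (if 2 ∣ m then |((PowerSeries.coeff (m / 2) g : ℚ) : ℝ)| else 0) *
          ρ ^ m := by
        refine Finset.sum_le_sum_of_subset_of_nonneg (Finset.range_mono (by omega)) fun m _ _ => ?_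
        refine mul_nonneg ?_ (by positivity)
        split_ifs
        · exact abs_nonneg _
        · exact le_rfl
    _ = ∑ n ∈ Finset.range N, |((PowerSeries.coeff n g : ℚ) : ℝ)| * ρ ^ (2 * n) :=
        Cbd_even N (fun n => |((PowerSeries.coeff n g : ℚ) : ℝ)|) ρ
    _ ≤ ∑ n ∈ Finset.range N, |((PowerSeries.coeff n g : ℚ) : ℝ)| * ρ ^ n := by
        refine Finset.sum_le_sum fun n _ => mul_le_mul_of_nonneg_left ?_ (abs_nonneg _)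
        exact pow_le_pow_of_le_one hρ.le hρ1.le (by omega)
    _ ≤ B := hg N

theorem Sz_MR {ρ : ℝ} (hρ : 0 < ρ) (hρ1 : ρ < 1) : 1 ≤ MR ρ := by
  unfold MR
  rw [le_div_iff₀ (by nlinarith)]
  nlinarith

theorem Sz_mono {ρ A B : ℝ} (h : A ≤ B) {g : ℚ⟦X⟧} (hg : Bd ρ A g) : Bd ρ B g :=
  fun N => (hg N).trans h

theorem Bd_WW {ρ : ℝ} (hρ : 0 < ρ) (hρ1 : ρ < 1) : Bd ρ (MR ρ) WW :=
  Sz_dbl hρ hρ1 (Bd_U hρ hρ1)

theorem Bd_ss {ρ : ℝ} (hρ : 0 < ρ) (hρ1 : ρ < 1) : Bd ρ (MR ρ) ss := by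
  have h1 : U ℚ - V ℚ = U ℚ + PowerSeries.C (-1 : ℚ) * V ℚ := by
    rw [map_neg, map_one, neg_one_mul, sub_eq_add_neg]
  have h2 : Bd ρ (|((1 / 8 : ℚ) : ℝ)| * (MR ρ + |((-1 : ℚ) : ℝ)| * MR ρ)) ss := by
    unfold ss
    rw [h1]
    exact (Cbd_C _).mul hρ ((Bd_U hρ hρ1).add hρ ((Cbd_C _).mul hρ (Bd_V hρ hρ1)))
  refine Sz_mono ?_ h2
  have h3 := Sz_MR hρ hρ1
  norm_num
  linarith

theorem Bd_DW {ρ : ℝ} (hρ : 0 < ρ) (hρ1 : ρ < 1) : ∃ B : ℝ, 1 ≤ B ∧ Bd ρ B (Dq ℚ WW) := by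
  set τ : ℝ := Real.sqrt ρ with hτ
  have hτ0 : 0 < τ := Real.sqrt_pos.2 hρ
  have hτ1 : τ < 1 := by
    rw [hτ, Real.sqrt_lt' one_pos]
    linarith
  have hτ2 : τ * τ = ρ := Real.mul_self_sqrt hρ.le
  have hτ3 : 0 < 1 - τ := by linarith
  have hn : ∀ n : ℕ, (n : ℝ) * τ ^ n ≤ (1 - τ)⁻¹ := by
    intro n
    calc (n : ℝ) * τ ^ n = ∑ i ∈ Finset.range n, τ ^ n := by
          rw [Finset.sum_const, Finset.card_range, nsmul_eq_mul]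
      _ ≤ ∑ i ∈ Finset.range n, τ ^ i := by
          refine Finset.sum_le_sum fun i hi => ?_
          exact pow_le_pow_of_le_one hτ0.le hτ1.le (Finset.mem_range.1 hi).le
      _ ≤ (1 - τ)⁻¹ := by
          rw [← tsum_geometric_of_lt_one hτ0.le hτ1]
          exact (summable_geometric_of_lt_one hτ0.le hτ1).sum_le_tsum _ (fun n _ => by positivity)
  refine ⟨max 1 ((1 - τ)⁻¹ * MR τ), le_max_left _ _, fun N => ?_⟩
  refine le_trans ?_ (le_max_right _ _)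
  have hW := Bd_WW hτ0 hτ1 N
  calc ∑ n ∈ Finset.range N, |((PowerSeries.coeff n (Dq ℚ WW) : ℚ) : ℝ)| * ρ ^ n
      ≤ ∑ n ∈ Finset.range N, (1 - τ)⁻¹ * (|((PowerSeries.coeff n WW : ℚ) : ℝ)| * τ ^ n) := by
        refine Finset.sum_le_sum fun n _ => ?_
        rw [coeff_Dq, Rat.cast_mul, Rat.cast_natCast, abs_mul, Nat.abs_cast, ← hτ2, mul_pow]
        have h1 : (n : ℝ) * |((PowerSeries.coeff n WW : ℚ) : ℝ)| * (τ ^ n * τ ^ n) =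
            ((n : ℝ) * τ ^ n) * (|((PowerSeries.coeff n WW : ℚ) : ℝ)| * τ ^ n) := by ring
        rw [h1]
        exact mul_le_mul_of_nonneg_right (hn n) (by positivity)
    _ = (1 - τ)⁻¹ * ∑ n ∈ Finset.range N, |((PowerSeries.coeff n WW : ℚ) : ℝ)| * τ ^ n := by
        rw [Finset.mul_sum]
    _ ≤ (1 - τ)⁻¹ * MR τ := mul_le_mul_of_nonneg_left hW (inv_nonneg.2 hτ3.le)

theorem Ph_bd (f : ℤ⟦X⟧) (κ L n : ℕ) (x : Ix κ L n) {ρ B : ℝ} (hρ : 0 < ρ) (hρ1 : ρ < 1)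
    (hB : 1 ≤ B) (h1 : Bd ρ B (F1 f)) (h2 : Bd ρ B (Dq ℚ WW)) (l : ℕ) :
    |((PowerSeries.coeff l (Ph f κ L n x) : ℚ) : ℝ)| ≤
      MR ρ ^ (n + 6 * κ * L) * B ^ ((κ + 1) * L) * (ρ⁻¹) ^ l := by
  obtain ⟨i, j, e⟩ := x
  have hMR : 1 ≤ MR ρ := Sz_MR hρ hρ1
  have h3 : Bd ρ (MR ρ ^ (n + 3 * (2 * κ * L) - i - 3 * j - κ * e) * MR ρ ^ (i : ℕ) * B ^ (j : ℕ) *
      B ^ (e : ℕ)) (Ph f κ L n (i, j, e)) :=
    ((((Bd_WW hρ hρ1).pow hρ _).mul hρ ((Bd_ss hρ hρ1).pow hρ _)).mul hρ (h2.pow hρ _)).mul hρ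
      (h1.pow hρ _)
  have h4 : |((PowerSeries.coeff l (Ph f κ L n (i, j, e)) : ℚ) : ℝ)| * ρ ^ l ≤
      MR ρ ^ (n + 3 * (2 * κ * L) - i - 3 * j - κ * e) * MR ρ ^ (i : ℕ) * B ^ (j : ℕ) *
        B ^ (e : ℕ) := by
    refine le_trans ?_ (h3 (l + 1))
    rw [Finset.sum_range_succ]
    have : 0 ≤ ∑ m ∈ Finset.range l, |((PowerSeries.coeff m (Ph f κ L n (i, j, e)) : ℚ) : ℝ)| * ρ ^ m :=
      Finset.sum_nonneg fun m _ => by positivity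
    linarith
  have h5 : MR ρ ^ (n + 3 * (2 * κ * L) - i - 3 * j - κ * e) * MR ρ ^ (i : ℕ) * B ^ (j : ℕ) *
        B ^ (e : ℕ) ≤
      MR ρ ^ (n + 6 * κ * L) * B ^ ((κ + 1) * L) := by
    have e1 : MR ρ ^ (n + 3 * (2 * κ * L) - i - 3 * j - κ * e) * MR ρ ^ (i : ℕ) * B ^ (j : ℕ) *
        B ^ (e : ℕ) =
        MR ρ ^ (n + 3 * (2 * κ * L) - i - 3 * j - κ * e + i) * B ^ ((j : ℕ) + e) := by
      rw [pow_add, pow_add]; ring
    rw [e1]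
    have e2 : n + 3 * (2 * κ * L) - (i : ℕ) - 3 * j - κ * e + i ≤ n + 6 * κ * L := by
      have he : (i : ℕ) ≤ n := Nat.lt_succ_iff.1 i.2
      have h7 : 3 * (2 * κ * L) = 6 * κ * L := by ring
      rw [h7]
      generalize 6 * κ * L = A
      generalize κ * (e : ℕ) = A'
      omega
    have e3 : (j : ℕ) + e ≤ (κ + 1) * L := by
      have h7 := j.2
      have h8 := e.2
      rw [add_mul, one_mul]
      omega
    exact mul_le_mul (pow_le_pow_right₀ hMR e2) (pow_le_pow_right₀ hB e3) (by positivity)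
      (by positivity)
  have h6 : 0 < ρ ^ l := by positivity
  have h7 := h4.trans h5
  rw [← le_div_iff₀ h6] at h7
  rw [inv_pow, ← div_eq_mul_inv]
  exact h7

theorem PhS_bd (f : ℤ⟦X⟧) (κ L n : ℕ) (t : Ix κ L n → ℤ) (T : ℕ) (ht : ∀ x, |t x| ≤ T)
    {ρ B : ℝ} (hρ : 0 < ρ) (hρ1 : ρ < 1)
    (hB : 1 ≤ B) (h1 : Bd ρ B (F1 f)) (h2 : Bd ρ B (Dq ℚ WW)) (l : ℕ) :
    |((PowerSeries.coeff l (PhS f κ L n t) : ℚ) : ℝ)| ≤
      ((n + 1) * (κ * L + 1) * (L + 1) : ℕ) * T *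
        (MR ρ ^ (n + 6 * κ * L) * B ^ ((κ + 1) * L) * (ρ⁻¹) ^ l) := by
  set A : ℝ := MR ρ ^ (n + 6 * κ * L) * B ^ ((κ + 1) * L) * (ρ⁻¹) ^ l with hA
  have hMR : 1 ≤ MR ρ := Sz_MR hρ hρ1
  have hA0 : 0 ≤ A := by positivity
  unfold PhS
  rw [map_sum, Rat.cast_sum]
  calc |∑ x, ((PowerSeries.coeff l (PowerSeries.C ((t x : ℤ) : ℚ) * Ph f κ L n x) : ℚ) : ℝ)|
      ≤ ∑ x, |((PowerSeries.coeff l (PowerSeries.C ((t x : ℤ) : ℚ) * Ph f κ L n x) : ℚ) : ℝ)| :=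
        Finset.abs_sum_le_sum_abs _ _
    _ ≤ ∑ _x : Ix κ L n, (T : ℝ) * A := by
        refine Finset.sum_le_sum fun x _ => ?_
        rw [PowerSeries.coeff_C_mul, Rat.cast_mul, abs_mul, Rat.cast_intCast]
        refine mul_le_mul ?_ (Ph_bd f κ L n x hρ hρ1 hB h1 h2 l) (abs_nonneg _) (Nat.cast_nonneg _)
        exact_mod_cast ht x
    _ = ((n + 1) * (κ * L + 1) * (L + 1) : ℕ) * T * A := by
        rw [Finset.sum_const, nsmul_eq_mul, Finset.card_univ, Fintype.card_prod, Fintype.card_prod,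
          Fintype.card_fin, Fintype.card_fin, Fintype.card_fin]
        push_cast
        ring

end Pool.Agent.H68.OP
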